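import Pool.Agent.helper91.BrunTitchmarsh

set_option autoImplicit false

/-!
# Primes in the progressions `b + 10^e t`, `t < 10^j`: at most `100 * 10^j / j`

Selberg's sieve for intervals (`Pool.Agent.helper91.BT.sum_W_le`) and the Chinese remainder theorem: for every class
`r` of `t` modulo `10` there is `A` such that `t + A` has no prime factor `≤ z` whenever `b + 10^e t` is a prime `> z`
and `t ≡ r` modulo `10`.
-/

namespace Pool.Agent.helper2.CP

open Finset Pool.Agent.helper91

/-- numbers in `(A, A + H]` without prime factor `≤ z` -/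
noncomputable def roughs (z A H : ℕ) : Finset ℕ := by
  classical exact (Finset.Ioc A (A + H)).filter (fun m => ∀ l : ℕ, l.Prime → l ≤ z → ¬ l ∣ m)

theorem W_rough {z m : ℕ} (hz : 1 ≤ z) (hm : ∀ l : ℕ, l.Prime → l ≤ z → ¬ l ∣ m) : BT.W z m = 1 := by
  have h : (BT.D z).filter (fun d => d ∣ m) = {1} := by
    ext d
    simp only [Finset.mem_filter, BT.mem_D, Finset.mem_singleton]
    constructor
    · rintro ⟨⟨⟨h1, h2⟩, _⟩, h3⟩
      by_contra h4
      obtain ⟨l, hl, hld⟩ := Nat.exists_prime_and_dvd h4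
      exact hm l hl ((Nat.le_of_dvd (by omega) hld).trans h2) (hld.trans h3)
    · rintro rfl
      exact ⟨⟨⟨le_refl _, hz⟩, squarefree_one⟩, one_dvd _⟩
  unfold BT.W
  rw [h, Finset.sum_singleton, BT.lam_one hz]
  norm_num

theorem card_roughs_le {z : ℕ} (hz : 1 ≤ z) (A H : ℕ) :
    ((roughs z A H).card : ℝ) ≤ H / BT.G z + (z : ℝ) ^ 4 := by
  classical
  refine le_trans ?_ (BT.sum_W_le hz A H)
  have h1 : ((roughs z A H).card : ℝ) = ∑ m ∈ roughs z A H, BT.W z m := by
    rw [Finset.card_eq_sum_ones]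
    push_cast
    refine Finset.sum_congr rfl fun m hm => ?_
    unfold roughs at hm
    rw [Finset.mem_filter] at hm
    exact (W_rough hz hm.2).symm
  rw [h1]
  unfold roughs
  exact Finset.sum_le_sum_of_subset_of_nonneg (Finset.filter_subset _ _) fun m _ _ => BT.W_nonneg z m

/-- `t < H` with `b + 10^e t` prime -/
def primesAP (b e H : ℕ) : Finset ℕ := (Finset.range H).filter (fun t => (b + 10 ^ e * t).Prime)

/-- the shift -/
theorem exists_shift (b e z r : ℕ) : ∃ A : ℕ, 1 ≤ A ∧ ∀ t : ℕ, t % 10 = r →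
    (∀ l : ℕ, l.Prime → l ≤ z → ¬ l ∣ b + 10 ^ e * t) → ∀ l : ℕ, l.Prime → l ≤ z → ¬ l ∣ t + A := by
  classical
  -- residues
  have hres : ∀ l : ℕ, ∃ c : ℕ, l.Prime → ∀ t : ℕ, t % 10 = r → (¬ l ∣ b + 10 ^ e * t) → ¬ l ∣ t + c := by
    intro l
    by_cases hl : l.Prime
    · by_cases h10 : l ∣ 10
      · refine ⟨1 + 9 * r, fun _ t ht _ hd => ?_⟩
        have h1 : l ∣ t + 9 * r := by
          have h2 : 10 ∣ t + 9 * r := by omega
          exact h10.trans h2
        have h3 : l ∣ 1 := by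
          have h4 : t + (1 + 9 * r) = (t + 9 * r) + 1 := by ring
          rw [h4] at hd
          exact (Nat.dvd_add_right h1).1 hd
        exact hl.one_lt.ne' (Nat.dvd_one.1 h3)
      · have : Fact l.Prime := ⟨hl⟩
        have hne : ((10 ^ e : ℕ) : ZMod l) ≠ 0 := by
          intro h
          rw [ZMod.natCast_eq_zero_iff] at h
          exact h10 (hl.dvd_of_dvd_pow h)
        refine ⟨((b : ZMod l) / ((10 ^ e : ℕ) : ZMod l)).val, fun _ t _ ht hd => ht ?_⟩
        rw [← ZMod.natCast_eq_zero_iff] at hd ⊢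
        rw [Nat.cast_add, ZMod.natCast_zmod_val] at hd
        rw [Nat.cast_add, Nat.cast_mul]
        have h1 : (b : ZMod l) = ((10 ^ e : ℕ) : ZMod l) * ((b : ZMod l) / ((10 ^ e : ℕ) : ZMod l)) := by
          field_simp
        rw [h1, ← mul_add, add_comm, hd, mul_zero]
    · exact ⟨0, fun h => absurd h hl⟩
  choose c hc using hres
  have hco : Set.Pairwise (((Finset.range (z + 1)).filter Nat.Prime : Finset ℕ) : Set ℕ)
      (Function.onFun Nat.Coprime (fun p : ℕ => p)) := by
    intro p hp q hq hpq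
    rw [Finset.mem_coe, Finset.mem_filter] at hp hq
    exact (Nat.coprime_primes hp.2 hq.2).mpr hpq
  obtain ⟨A, hA⟩ := Nat.chineseRemainderOfFinset c (fun p : ℕ => p)
    ((Finset.range (z + 1)).filter Nat.Prime)
    (fun p hp => (Finset.mem_filter.mp hp).2.ne_zero) hco
  refine ⟨A + ∏ p ∈ (Finset.range (z + 1)).filter Nat.Prime, p, ?_, ?_⟩
  · have : 0 < ∏ p ∈ (Finset.range (z + 1)).filter Nat.Prime, p :=
      Finset.prod_pos fun p hp => (Finset.mem_filter.1 hp).2.pos
    omega
  · intro t ht h l hl hlz hd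
    have hmem : l ∈ (Finset.range (z + 1)).filter Nat.Prime :=
      Finset.mem_filter.2 ⟨Finset.mem_range.2 (by omega), hl⟩
    have h1 : l ∣ ∏ p ∈ (Finset.range (z + 1)).filter Nat.Prime, p := Finset.dvd_prod_of_mem _ hmem
    have h2 : l ∣ t + A := by
      rw [← add_assoc] at hd
      exact (Nat.dvd_add_left h1).1 hd
    have h3 : A ≡ c l [MOD l] := hA l hmem
    refine hc l hl t ht (h l hl hlz) ?_
    have h4 : t + A ≡ t + c l [MOD l] := Nat.ModEq.add_left t h3
    exact (h4.dvd_iff dvd_rfl).1 h2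

theorem card_primesAP_le {z : ℕ} (hz : 1 ≤ z) (b e H : ℕ) :
    ((primesAP b e H).card : ℝ) ≤ (z + 1) + 10 * (H / BT.G z + (z : ℝ) ^ 4) := by
  classical
  -- split
  have hsub : primesAP b e H ⊆ (Finset.range (z + 1)).biUnion (fun v => (primesAP b e H).filter (fun t => b + 10 ^ e * t = v)) ∪
      (Finset.range 10).biUnion (fun r => (primesAP b e H).filter
        (fun t => t % 10 = r ∧ z < b + 10 ^ e * t)) := by
    intro t ht
    rw [Finset.mem_union, Finset.mem_biUnion, Finset.mem_biUnion]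
    by_cases h : z < b + 10 ^ e * t
    · right
      exact ⟨t % 10, Finset.mem_range.2 (Nat.mod_lt _ (by norm_num)), Finset.mem_filter.2 ⟨ht, rfl, h⟩⟩
    · left
      exact ⟨b + 10 ^ e * t, Finset.mem_range.2 (by omega), Finset.mem_filter.2 ⟨ht, rfl⟩⟩
  have h1 : ((Finset.range (z + 1)).biUnion (fun v => (primesAP b e H).filter (fun t => b + 10 ^ e * t = v))).card ≤
      z + 1 := by
    refine Finset.card_biUnion_le.trans ?_
    calc ∑ v ∈ Finset.range (z + 1), ((primesAP b e H).filter (fun t => b + 10 ^ e * t = v)).card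
        ≤ ∑ _v ∈ Finset.range (z + 1), 1 := by
          refine Finset.sum_le_sum fun v _ => ?_
          rw [Finset.card_le_one]
          intro t ht s hs
          rw [Finset.mem_filter] at ht hs
          have h2 : 10 ^ e * t = 10 ^ e * s := by omega
          exact Nat.eq_of_mul_eq_mul_left (by positivity) h2
      _ = z + 1 := by simp
  have h2 : ∀ r ∈ Finset.range 10, (((primesAP b e H).filter
      (fun t => t % 10 = r ∧ z < b + 10 ^ e * t)).card : ℝ) ≤ H / BT.G z + (z : ℝ) ^ 4 := by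
    intro r _
    obtain ⟨A, hA1, hA⟩ := exists_shift b e z r
    refine le_trans ?_ (card_roughs_le hz (A - 1) H)
    have h3 : ((primesAP b e H).filter (fun t => t % 10 = r ∧ z < b + 10 ^ e * t)).card ≤
        (roughs z (A - 1) H).card := by
      refine Finset.card_le_card_of_injOn (fun t => t + A) ?_ ?_
      · intro t ht
        rw [Finset.mem_coe, Finset.mem_filter] at ht
        obtain ⟨ht1, ht2, ht3⟩ := ht
        unfold primesAP at ht1
        rw [Finset.mem_filter, Finset.mem_range] at ht1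
        unfold roughs
        rw [Finset.mem_coe, Finset.mem_filter, Finset.mem_Ioc]
        refine ⟨⟨?_, ?_⟩, ?_⟩
        · show A - 1 < t + A
          omega
        · show t + A ≤ A - 1 + H
          omega
        refine hA t ht2 ?_
        intro l hl hlz hd
        have := (Nat.prime_dvd_prime_iff_eq hl ht1.2).1 hd
        omega
      · intro t _ s _ hts
        simpa using hts
    exact_mod_cast h3
  have h3 : ((primesAP b e H).card : ℝ) ≤ ((Finset.range (z + 1)).biUnion (fun v => (primesAP b e H).filter (fun t => b + 10 ^ e * t = v))).card +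
      ((Finset.range 10).biUnion (fun r => (primesAP b e H).filter
        (fun t => t % 10 = r ∧ z < b + 10 ^ e * t))).card := by
    exact_mod_cast (Finset.card_le_card hsub).trans (Finset.card_union_le _ _)
  have h4 : (((Finset.range 10).biUnion (fun r => (primesAP b e H).filter
        (fun t => t % 10 = r ∧ z < b + 10 ^ e * t))).card : ℝ) ≤ 10 * (H / BT.G z + (z : ℝ) ^ 4) := by
    calc (((Finset.range 10).biUnion (fun r => (primesAP b e H).filter
        (fun t => t % 10 = r ∧ z < b + 10 ^ e * t))).card : ℝ)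
        ≤ ∑ r ∈ Finset.range 10, (((primesAP b e H).filter
        (fun t => t % 10 = r ∧ z < b + 10 ^ e * t)).card : ℝ) := by
          exact_mod_cast Finset.card_biUnion_le
      _ ≤ ∑ _r ∈ Finset.range 10, (H / BT.G z + (z : ℝ) ^ 4) := Finset.sum_le_sum h2
      _ = 10 * (H / BT.G z + (z : ℝ) ^ 4) := by
          rw [Finset.sum_const, Finset.card_range, nsmul_eq_mul]
          norm_num
  have h5 : (((Finset.range (z + 1)).biUnion (fun v => (primesAP b e H).filter (fun t => b + 10 ^ e * t = v))).card : ℝ) ≤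
      z + 1 := by exact_mod_cast h1
  linarith

theorem primesAP_le (b e H : ℕ) (hH : 2 ≤ H) :
    ((primesAP b e H).card : ℝ) ≤ 200 * H / Real.log H := by
  have hH' : (2:ℝ) ≤ H := by exact_mod_cast hH
  have hH0 : (0:ℝ) < H := by linarith
  have hlog : 0 < Real.log H := Real.log_pos (by linarith)
  obtain ⟨t, ht⟩ : ∃ t : ℝ, t = (H:ℝ) ^ ((1:ℝ)/8) := ⟨_, rfl⟩
  have ht1 : 1 ≤ t := by rw [ht]; exact Real.one_le_rpow (by linarith) (by norm_num)
  obtain ⟨z, hz⟩ : ∃ z : ℕ, z = ⌊t⌋₊ := ⟨_, rfl⟩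
  have hz1 : 1 ≤ z := by rw [hz]; exact Nat.le_floor (by simpa using ht1)
  have hzt : (z:ℝ) ≤ t := by rw [hz]; exact Nat.floor_le (by linarith)
  have hzt2 : t < z + 1 := by rw [hz]; exact Nat.lt_floor_add_one t
  have h1 := card_primesAP_le hz1 b e H
  have hG : Real.log H / 16 ≤ BT.G z := by
    have h2 := BT.G_ge_log z
    have h3 : Real.log t ≤ Real.log (z + 1) := Real.log_le_log (by linarith) hzt2.le
    have h4 : Real.log t = Real.log H / 8 := by
      rw [ht, Real.log_rpow hH0]; ring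
    linarith
  have h5 : (H:ℝ) / BT.G z ≤ 16 * H / Real.log H := by
    calc (H:ℝ) / BT.G z ≤ H / (Real.log H / 16) := by gcongr
      _ = _ := by field_simp
  have ht4 : t ^ 4 = Real.sqrt H := by
    rw [ht, ← Real.rpow_natCast, ← Real.rpow_mul hH0.le, Real.sqrt_eq_rpow]
    norm_num
  have h6 : (z:ℝ) ^ 4 ≤ Real.sqrt H := by rw [← ht4]; gcongr
  have h7 : (z:ℝ) ≤ Real.sqrt H := by
    rw [← ht4]
    calc (z:ℝ) ≤ t := hzt
      _ ≤ t ^ 4 := le_self_pow₀ ht1 (by norm_num)
  have h8 : Real.sqrt H ≤ 2 * H / Real.log H := by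
    rw [le_div_iff₀ hlog]
    have h9 : Real.log H ≤ 2 * Real.sqrt H := by
      have := Real.log_le_rpow_div hH0.le (show (0:ℝ) < 1/2 by norm_num)
      rw [← Real.sqrt_eq_rpow] at this
      linarith
    have h10 : Real.sqrt H * Real.sqrt H = H := Real.mul_self_sqrt hH0.le
    nlinarith [Real.sqrt_nonneg H]
  have h9 : (1 : ℝ) ≤ Real.sqrt H := by
    rw [Real.one_le_sqrt]
    linarith
  obtain ⟨u, hu⟩ : ∃ u : ℝ, u = H / Real.log H := ⟨_, rfl⟩
  have e1 : 16 * (H : ℝ) / Real.log H = 16 * u := by rw [hu]; ring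
  have e2 : 2 * (H : ℝ) / Real.log H = 2 * u := by rw [hu]; ring
  have e3 : 200 * (H : ℝ) / Real.log H = 200 * u := by rw [hu]; ring
  rw [e1] at h5
  rw [e2] at h8
  rw [e3]
  have hu0 : 0 < u := by rw [hu]; positivity
  linarith

theorem two_le_log_ten : 2 ≤ Real.log 10 := by
  rw [Real.le_log_iff_exp_le (by norm_num)]
  have h1 := Real.exp_one_lt_d9
  have h2 : Real.exp 2 = Real.exp 1 * Real.exp 1 := by
    rw [← Real.exp_add]
    norm_num
  rw [h2]
  nlinarith [Real.exp_pos 1]

/-- at most `100 * 10^j / j` primes `b + 10^e t` with `t < 10^j` -/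
theorem primesAP_ten_le (b e j : ℕ) (hj : 1 ≤ j) :
    ((primesAP b e (10 ^ j)).card : ℝ) ≤ 100 * 10 ^ j / j := by
  have h1 := primesAP_le b e (10 ^ j) (by
    calc 2 ≤ 10 ^ 1 := by norm_num
      _ ≤ 10 ^ j := Nat.pow_le_pow_right (by norm_num) hj)
  push_cast at h1
  rw [Real.log_pow] at h1
  refine h1.trans ?_
  have hj0 : (0 : ℝ) < j := by exact_mod_cast hj
  have h2 := two_le_log_ten
  rw [div_le_div_iff₀ (by positivity) hj0]
  have h3 : (0 : ℝ) < 10 ^ j := by positivity
  nlinarith [mul_pos h3 hj0, mul_le_mul_of_nonneg_left h2 (mul_pos h3 hj0).le]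

end Pool.Agent.helper2.CP
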