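import Pool.Agent.helper2.CP.B1

set_option autoImplicit false

/-!
# The number of prime suffixes of a decimal string: exponential moment

`cnt D x` is the number of `d < D` such that the last `d + 1` digits of `x` form a prime with exactly `d + 1` digits.
-/

namespace Pool.Agent.helper2.CP

open Finset

/-- the last `d + 1` digits of `x` form a prime with exactly `d + 1` digits -/
def isP (d x : ℕ) : Prop := (x % 10 ^ (d + 1)).Prime ∧ 10 ^ d ≤ x % 10 ^ (d + 1)

instance (d x : ℕ) : Decidable (isP d x) := by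
  unfold isP
  infer_instance

def cnt (D x : ℕ) : ℕ := ((range D).filter (fun d => isP d x)).card

theorem cnt_succ (D x : ℕ) : cnt (D + 1) x = cnt D x + if isP D x then 1 else 0 := by
  unfold cnt
  rw [range_add_one, filter_insert]
  split_ifs with h
  · rw [card_insert_of_notMem]
    simp
  · simp

theorem isP_mod {d j x : ℕ} (h : d + 1 ≤ j) : isP d (x % 10 ^ j) ↔ isP d x := by
  unfold isP
  rw [Nat.mod_mod_of_dvd _ (pow_dvd_pow 10 h)]

theorem cnt_mod {D j x : ℕ} (h : D ≤ j) : cnt D (x % 10 ^ j) = cnt D x := by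
  unfold cnt
  congr 1
  ext d
  simp only [mem_filter, mem_range]
  constructor
  · rintro ⟨h1, h2⟩
    exact ⟨h1, (isP_mod (by omega)).1 h2⟩
  · rintro ⟨h1, h2⟩
    exact ⟨h1, (isP_mod (by omega)).2 h2⟩

/-- the weight of the suffix of length `d + 1` -/
noncomputable def wt (L : ℝ) (d x : ℕ) : ℝ := if isP d x then L ^ cnt d x else 0

theorem wt_nonneg {L : ℝ} (hL : 0 ≤ L) (d x : ℕ) : 0 ≤ wt L d x := by
  unfold wt
  split_ifs
  · positivity
  · exact le_rfl

theorem wt_mod {L : ℝ} {d j x : ℕ} (h : d + 1 ≤ j) : wt L d (x % 10 ^ j) = wt L d x := by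
  unfold wt
  simp only [isP_mod h, cnt_mod (by omega : d ≤ j)]

theorem pow_cnt (L : ℝ) (D x : ℕ) : L ^ cnt D x = 1 + (L - 1) * ∑ d ∈ range D, wt L d x := by
  induction D with
  | zero => simp [cnt]
  | succ D ih =>
    rw [cnt_succ, sum_range_succ, mul_add, ← add_assoc, ← ih]
    unfold wt
    split_ifs
    · rw [pow_succ]
      ring
    · simp

theorem sum_split (f : ℕ → ℝ) (i j : ℕ) :
    ∑ x ∈ range (10 ^ (i + j)), f x = ∑ y ∈ range (10 ^ i), ∑ t ∈ range (10 ^ j), f (y + 10 ^ i * t) := by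
  rw [← Finset.sum_product']
  refine Finset.sum_nbij' (fun x => (x % 10 ^ i, x / 10 ^ i)) (fun p => p.1 + 10 ^ i * p.2) ?_ ?_ ?_ ?_ ?_
  · intro x hx
    rw [mem_range] at hx
    rw [mem_product, mem_range, mem_range]
    refine ⟨Nat.mod_lt _ (by positivity), ?_⟩
    apply Nat.div_lt_of_lt_mul
    rw [← pow_add]
    exact hx
  · rintro ⟨y, t⟩ hp
    rw [mem_product, mem_range, mem_range] at hp
    rw [mem_range]
    obtain ⟨h1, h2⟩ := hp
    simp only at h1 h2 ⊢
    have h3 : 10 ^ i * (t + 1) ≤ 10 ^ i * 10 ^ j := Nat.mul_le_mul_left _ h2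
    rw [mul_add, ← pow_add] at h3
    omega
  · intro x _
    exact Nat.mod_add_div x (10 ^ i)
  · rintro ⟨y, t⟩ hp
    rw [mem_product, mem_range, mem_range] at hp
    obtain ⟨h1, _⟩ := hp
    simp only at h1 ⊢
    rw [Prod.mk.injEq]
    constructor
    · rw [Nat.add_mul_mod_self_left, Nat.mod_eq_of_lt h1]
    · rw [Nat.add_mul_div_left _ _ (by positivity), Nat.div_eq_of_lt h1, zero_add]
  · intro x _
    rw [Nat.mod_add_div]

/-- mass of the weights -/
noncomputable def ms (L : ℝ) (d : ℕ) : ℝ := ∑ x ∈ range (10 ^ (d + 1)), wt L d x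

theorem ms_nonneg {L : ℝ} (hL : 0 ≤ L) (d : ℕ) : 0 ≤ ms L d :=
  Finset.sum_nonneg fun x _ => wt_nonneg hL d x

theorem cross_le {L : ℝ} (hL : 0 ≤ L) {d' d : ℕ} (h : d' < d) :
    ∑ x ∈ range (10 ^ (d + 1)), (if isP d x then wt L d' x else 0) ≤
      ms L d' * (100 * 10 ^ (d - d') / ((d - d' : ℕ) : ℝ)) := by
  have e : d + 1 = (d' + 1) + (d - d') := by omega
  rw [e, sum_split, ms, Finset.sum_mul]
  refine Finset.sum_le_sum fun y hy => ?_
  rw [mem_range] at hy
  have h1 : ∀ t ∈ range (10 ^ (d - d')), (if isP d (y + 10 ^ (d' + 1) * t) then wt L d' (y + 10 ^ (d' + 1) * t) else 0) ≤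
      wt L d' y * (if (y + 10 ^ (d' + 1) * t).Prime then 1 else 0) := by
    intro t ht
    rw [mem_range] at ht
    have h2 : wt L d' (y + 10 ^ (d' + 1) * t) = wt L d' y := by
      rw [← wt_mod (le_refl (d' + 1)), Nat.add_mul_mod_self_left, Nat.mod_eq_of_lt hy]
    rw [h2]
    have hlt : y + 10 ^ (d' + 1) * t < 10 ^ (d + 1) := by
      have h3 : 10 ^ (d' + 1) * (t + 1) ≤ 10 ^ (d' + 1) * 10 ^ (d - d') := Nat.mul_le_mul_left _ ht
      rw [mul_add, ← pow_add, ← e] at h3
      omega
    by_cases hp : isP d (y + 10 ^ (d' + 1) * t)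
    · have h4 : (y + 10 ^ (d' + 1) * t).Prime := by
        have := hp.1
        rwa [Nat.mod_eq_of_lt hlt] at this
      rw [if_pos hp, if_pos h4, mul_one]
    · rw [if_neg hp]
      exact mul_nonneg (wt_nonneg hL _ _) (by split_ifs <;> norm_num)
  refine (Finset.sum_le_sum h1).trans ?_
  rw [← Finset.mul_sum]
  apply mul_le_mul_of_nonneg_left _ (wt_nonneg hL _ _)
  have h5 := primesAP_ten_le y (d' + 1) (d - d') (by omega)
  refine le_trans (le_of_eq ?_) h5
  unfold primesAP
  rw [Finset.card_filter]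
  push_cast
  rfl

theorem first_le (d : ℕ) : ∑ x ∈ range (10 ^ (d + 1)), (if isP d x then (1 : ℝ) else 0) ≤
    100 * 10 ^ (d + 1) / ((d + 1 : ℕ) : ℝ) := by
  have h5 := primesAP_ten_le 0 0 (d + 1) (by omega)
  refine le_trans ?_ h5
  unfold primesAP
  rw [Finset.card_filter]
  push_cast
  refine Finset.sum_le_sum fun x hx => ?_
  rw [mem_range] at hx
  by_cases hp : isP d x
  · have h4 : x.Prime := by
      have := hp.1
      rwa [Nat.mod_eq_of_lt hx] at this
    rw [if_pos hp, if_pos (by simpa using h4)]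
  · rw [if_neg hp]
    split_ifs <;> norm_num

theorem ms_le {L : ℝ} (hL : 1 ≤ L) (d : ℕ) : ms L d ≤ 100 * 10 ^ (d + 1) / ((d + 1 : ℕ) : ℝ) +
    (L - 1) * ∑ d' ∈ range d, ms L d' * (100 * 10 ^ (d - d') / ((d - d' : ℕ) : ℝ)) := by
  have h1 : ms L d = ∑ x ∈ range (10 ^ (d + 1)), (if isP d x then (1 : ℝ) else 0) +
      (L - 1) * ∑ d' ∈ range d, ∑ x ∈ range (10 ^ (d + 1)), (if isP d x then wt L d' x else 0) := by
    rw [Finset.sum_comm, Finset.mul_sum, ← Finset.sum_add_distrib]
    unfold ms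
    refine Finset.sum_congr rfl fun x _ => ?_
    by_cases hp : isP d x
    · have h2 : wt L d x = L ^ cnt d x := by
        unfold wt
        rw [if_pos hp]
      rw [h2, pow_cnt]
      simp only [if_pos hp]
    · have h2 : wt L d x = 0 := by
        unfold wt
        rw [if_neg hp]
      rw [h2]
      simp only [if_neg hp]
      simp
  rw [h1]
  refine add_le_add (first_le d) (mul_le_mul_of_nonneg_left ?_ (by linarith))
  exact Finset.sum_le_sum fun d' hd' => cross_le (by linarith) (mem_range.1 hd')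

/-- normalised mass -/
noncomputable def em (L : ℝ) (d : ℕ) : ℝ := ms L d / 10 ^ (d + 1)

theorem em_nonneg {L : ℝ} (hL : 0 ≤ L) (d : ℕ) : 0 ≤ em L d :=
  div_nonneg (ms_nonneg hL d) (by positivity)

theorem em_le {L : ℝ} (hL : 1 ≤ L) (d : ℕ) : em L d ≤ 100 / ((d + 1 : ℕ) : ℝ) +
    (L - 1) * ∑ d' ∈ range d, em L d' * (100 / ((d - d' : ℕ) : ℝ)) := by
  have h1 := ms_le hL d
  have hp : (0 : ℝ) < 10 ^ (d + 1) := by positivity
  unfold em
  rw [div_le_iff₀ hp]
  refine h1.trans (le_of_eq ?_)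
  rw [add_mul, mul_assoc (L - 1), Finset.sum_mul]
  congr 1
  · ring
  · congr 1
    refine Finset.sum_congr rfl fun d' hd' => ?_
    rw [mem_range] at hd'
    have e : (10 : ℝ) ^ (d + 1) = 10 ^ (d' + 1) * 10 ^ (d - d') := by
      rw [← pow_add]
      congr 1
      omega
    rw [e]
    field_simp

/-- harmonic sum -/
noncomputable def hs (D : ℕ) : ℝ := ∑ i ∈ range D, 1 / ((i + 1 : ℕ) : ℝ)

theorem hs_nonneg (D : ℕ) : 0 ≤ hs D := Finset.sum_nonneg fun i _ => by positivity

theorem hs_mono {m n : ℕ} (h : m ≤ n) : hs m ≤ hs n :=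
  Finset.sum_le_sum_of_subset_of_nonneg (Finset.range_mono h) fun i _ _ => by positivity

theorem sum_em_le {L : ℝ} (hL : 1 ≤ L) (D : ℕ) (h : 200 * (L - 1) * hs D ≤ 1) :
    ∑ d ∈ range D, em L d ≤ 200 * hs D := by
  have h1 : ∑ d ∈ range D, em L d ≤ 100 * hs D + (L - 1) * (100 * hs D * ∑ d ∈ range D, em L d) := by
    calc ∑ d ∈ range D, em L d ≤ ∑ d ∈ range D, (100 / ((d + 1 : ℕ) : ℝ) +
          (L - 1) * ∑ d' ∈ range d, em L d' * (100 / ((d - d' : ℕ) : ℝ))) :=
          Finset.sum_le_sum fun d _ => em_le hL d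
      _ = 100 * hs D + (L - 1) * ∑ d ∈ range D, ∑ d' ∈ range d, em L d' * (100 / ((d - d' : ℕ) : ℝ)) := by
          rw [Finset.sum_add_distrib, ← Finset.mul_sum]
          congr 1
          unfold hs
          rw [Finset.mul_sum]
          exact Finset.sum_congr rfl fun i _ => by ring
      _ ≤ _ := by
          apply add_le_add le_rfl
          apply mul_le_mul_of_nonneg_left _ (by linarith)
          -- exchange
          have h2 : ∑ d ∈ range D, ∑ d' ∈ range d, em L d' * (100 / ((d - d' : ℕ) : ℝ)) =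
              ∑ d' ∈ range D, ∑ d ∈ Finset.Ico (d' + 1) D, em L d' * (100 / ((d - d' : ℕ) : ℝ)) := by
            rw [Finset.sum_sigma', Finset.sum_sigma']
            refine Finset.sum_nbij' (fun p => ⟨p.2, p.1⟩) (fun p => ⟨p.2, p.1⟩) ?_ ?_ ?_ ?_ ?_
            · rintro ⟨x, y⟩ hp
              simp only [Finset.mem_sigma, Finset.mem_range, Finset.mem_Ico] at hp ⊢
              omega
            · rintro ⟨x, y⟩ hp
              simp only [Finset.mem_sigma, Finset.mem_range, Finset.mem_Ico] at hp ⊢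
              omega
            · rintro ⟨x, y⟩ _
              rfl
            · rintro ⟨x, y⟩ _
              rfl
            · rintro ⟨x, y⟩ _
              rfl
          rw [h2, Finset.mul_sum]
          refine Finset.sum_le_sum fun d' hd' => ?_
          rw [mem_range] at hd'
          rw [← Finset.mul_sum, mul_comm]
          apply mul_le_mul_of_nonneg_right _ (em_nonneg (by linarith) d')
          rw [Finset.sum_Ico_eq_sum_range]
          have h3 : ∀ i ∈ range (D - (d' + 1)), (100 : ℝ) / ((d' + 1 + i - d' : ℕ) : ℝ) =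
              100 * (1 / ((i + 1 : ℕ) : ℝ)) := by
            intro i _
            have : d' + 1 + i - d' = i + 1 := by omega
            rw [this]
            ring
          rw [Finset.sum_congr rfl h3, ← Finset.mul_sum]
          exact mul_le_mul_of_nonneg_left (hs_mono (by omega)) (by norm_num)
  have h4 : 0 ≤ ∑ d ∈ range D, em L d := Finset.sum_nonneg fun d _ => em_nonneg (by linarith) d
  have h5 := hs_nonneg D
  nlinarith [mul_le_mul_of_nonneg_right h h4]

/-- the exponential moment -/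
theorem exp_moment {L : ℝ} (hL : 1 ≤ L) (D : ℕ) (h : 200 * (L - 1) * hs D ≤ 1) :
    ∑ x ∈ range (10 ^ D), L ^ cnt D x ≤ 2 * 10 ^ D := by
  have h1 : ∑ x ∈ range (10 ^ D), L ^ cnt D x =
      10 ^ D + (L - 1) * ∑ d ∈ range D, ∑ x ∈ range (10 ^ D), wt L d x := by
    rw [Finset.sum_comm, Finset.mul_sum]
    have h2 : ((10 : ℝ) ^ D) = ∑ _x ∈ range (10 ^ D), (1 : ℝ) := by simp
    rw [h2, ← Finset.sum_add_distrib]
    exact Finset.sum_congr rfl fun x _ => pow_cnt L D x
  have h2 : ∀ d ∈ range D, ∑ x ∈ range (10 ^ D), wt L d x = 10 ^ D * em L d := by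
    intro d hd
    rw [mem_range] at hd
    have e : D = (d + 1) + (D - (d + 1)) := by omega
    have h3 : ∑ x ∈ range (10 ^ ((d + 1) + (D - (d + 1)))), wt L d x =
        10 ^ (D - (d + 1)) * ms L d := by
      rw [sum_split, ms, Finset.mul_sum]
      refine Finset.sum_congr rfl fun y hy => ?_
      rw [mem_range] at hy
      have h4 : ∀ t ∈ range (10 ^ (D - (d + 1))), wt L d (y + 10 ^ (d + 1) * t) = wt L d y := by
        intro t _
        rw [← wt_mod (le_refl (d + 1)), Nat.add_mul_mod_self_left, Nat.mod_eq_of_lt hy]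
      rw [Finset.sum_congr rfl h4, Finset.sum_const, Finset.card_range, nsmul_eq_mul]
      push_cast
      ring
    rw [← e] at h3
    rw [h3]
    unfold em
    have e2 : (10 : ℝ) ^ D = 10 ^ (d + 1) * 10 ^ (D - (d + 1)) := by
      rw [← pow_add, ← e]
    rw [e2]
    field_simp
  rw [h1, Finset.sum_congr rfl h2, ← Finset.mul_sum]
  have h3 := sum_em_le hL D h
  have h4 : (0 : ℝ) < 10 ^ D := by positivity
  have h5 : (L - 1) * ∑ d ∈ range D, em L d ≤ 1 := by
    calc (L - 1) * ∑ d ∈ range D, em L d ≤ (L - 1) * (200 * hs D) :=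
          mul_le_mul_of_nonneg_left h3 (by linarith)
      _ = 200 * (L - 1) * hs D := by ring
      _ ≤ 1 := h
  nlinarith [mul_le_mul_of_nonneg_left h5 h4.le]

/-- few `x` have many prime suffixes -/
theorem card_many_le {L : ℝ} (hL : 1 ≤ L) (D T : ℕ) (h : 200 * (L - 1) * hs D ≤ 1) :
    (((range (10 ^ D)).filter (fun x => T ≤ cnt D x)).card : ℝ) * L ^ T ≤ 2 * 10 ^ D := by
  refine le_trans ?_ (exp_moment hL D h)
  rw [← nsmul_eq_mul, ← Finset.sum_const]
  calc ∑ _x ∈ (range (10 ^ D)).filter (fun x => T ≤ cnt D x), L ^ T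
      ≤ ∑ x ∈ (range (10 ^ D)).filter (fun x => T ≤ cnt D x), L ^ cnt D x := by
        refine Finset.sum_le_sum fun x hx => ?_
        exact pow_le_pow_right₀ hL (Finset.mem_filter.1 hx).2
    _ ≤ ∑ x ∈ range (10 ^ D), L ^ cnt D x :=
        Finset.sum_le_sum_of_subset_of_nonneg (Finset.filter_subset _ _) fun x _ _ => by positivity

end Pool.Agent.helper2.CP
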