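import Mathlib

set_option autoImplicit false

/-!
# The map `a` of MP_a50d3c_nt: cofactor, then largest prime factor
-/

namespace Pool.Agent.helper2.CP

/-- the largest prime factor of `n` (`0` if `n ≤ 1`) -/
def lpf (n : ℕ) : ℕ := n.primeFactors.sup id

/-- `a n = n` if `n ≤ 1` or `n` is prime; otherwise, with `p` the largest prime factor of `n`, the decimal string
of `a n` is the one of `n / p` followed by the one of `p` -/
def a (n : ℕ) : ℕ :=
  if n < 2 ∨ n.Prime then n else n / lpf n * 10 ^ (Nat.digits 10 (lpf n)).length + lpf n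

theorem lpf_mul {m p : ℕ} (hp : p.Prime) (hm : 0 < m) (hmp : m < p) : lpf (m * p) = p := by
  unfold lpf
  rw [Nat.primeFactors_mul hm.ne' hp.ne_zero, hp.primeFactors, Finset.sup_union]
  have h1 : m.primeFactors.sup id ≤ p := by
    apply Finset.sup_le
    intro q hq
    have := Nat.le_of_dvd hm (Nat.dvd_of_mem_primeFactors hq)
    simp only [id]
    omega
  simpa using h1

theorem a_mul {m p : ℕ} (hp : p.Prime) (hm : 2 ≤ m) (hmp : m < p) :
    a (m * p) = m * 10 ^ (Nat.digits 10 p).length + p := by
  unfold a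
  have h1 : ¬ (m * p < 2 ∨ (m * p).Prime) := by
    rintro (h | h)
    · have := hp.two_le
      nlinarith
    · exact Nat.not_prime_mul (by omega) hp.one_lt.ne' h
  rw [if_neg h1, lpf_mul hp (by omega) hmp, Nat.mul_div_cancel _ hp.pos]

theorem digits_length {p d : ℕ} (h1 : 10 ^ d ≤ p) (h2 : p < 10 ^ (d + 1)) :
    (Nat.digits 10 p).length = d + 1 := by
  have h3 : 0 < p := lt_of_lt_of_le (by positivity) h1
  rw [Nat.length_digits 10 p (by norm_num) h3.ne', Nat.log_eq_of_pow_le_of_lt_pow h1 h2]

end Pool.Agent.helper2.CP
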