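import Pool.Agent.helper2.CP.B2
import Pool.Agent.helper2.CP.Map

set_option autoImplicit false

/-!
# Preimages under `a` and prime suffixes
-/

namespace Pool.Agent.helper2.CP

open Finset

theorem lpf_mem {n : ℕ} (hn : 2 ≤ n) : lpf n ∈ n.primeFactors := by
  unfold lpf
  have hne : n.primeFactors.Nonempty := Nat.nonempty_primeFactors.2 (by omega)
  obtain ⟨p, hp, he⟩ := Finset.exists_mem_eq_sup n.primeFactors hne id
  rw [he]
  exact hp

theorem lpf_prime {n : ℕ} (hn : 2 ≤ n) : (lpf n).Prime := Nat.prime_of_mem_primeFactors (lpf_mem hn)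

theorem lpf_dvd {n : ℕ} (hn : 2 ≤ n) : lpf n ∣ n := Nat.dvd_of_mem_primeFactors (lpf_mem hn)

theorem lpf_le {n : ℕ} (hn : 2 ≤ n) : lpf n ≤ n := Nat.le_of_dvd (by omega) (lpf_dvd hn)

/-- number of digits of the largest prime factor, minus one -/
def len (n : ℕ) : ℕ := Nat.log 10 (lpf n)

theorem a_eq {n : ℕ} (hn : 2 ≤ n) (hnp : ¬ n.Prime) :
    a n = n / lpf n * 10 ^ (len n + 1) + lpf n := by
  unfold a len
  rw [if_neg (by rintro (h | h) <;> [omega; exact hnp h]),
    Nat.length_digits 10 (lpf n) (by norm_num) (lpf_prime hn).ne_zero]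

theorem lpf_lt {n : ℕ} : lpf n < 10 ^ (len n + 1) := Nat.lt_pow_succ_log_self (by norm_num) _

theorem le_lpf {n : ℕ} (hn : 2 ≤ n) : 10 ^ len n ≤ lpf n := Nat.pow_log_le_self 10 (lpf_prime hn).ne_zero

theorem a_mod {n : ℕ} (hn : 2 ≤ n) (hnp : ¬ n.Prime) : a n % 10 ^ (len n + 1) = lpf n := by
  rw [a_eq hn hnp, mul_comm, Nat.mul_add_mod, Nat.mod_eq_of_lt lpf_lt]

theorem a_div {n : ℕ} (hn : 2 ≤ n) (hnp : ¬ n.Prime) : a n / 10 ^ (len n + 1) = n / lpf n := by
  rw [a_eq hn hnp, mul_comm, Nat.mul_add_div (by positivity), Nat.div_eq_of_lt lpf_lt, add_zero]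

theorem a_isP {n : ℕ} (hn : 2 ≤ n) (hnp : ¬ n.Prime) : isP (len n) (a n) := by
  unfold isP
  rw [a_mod hn hnp]
  exact ⟨lpf_prime hn, le_lpf hn⟩

theorem len_lt {n D : ℕ} (hn : 2 ≤ n) (hD : n < 10 ^ D) : len n < D := by
  have h1 := le_lpf hn
  have h2 := lpf_le hn
  exact (Nat.pow_lt_pow_iff_right (by norm_num : 1 < 10)).1 (by omega : 10 ^ len n < 10 ^ D)

theorem a_lt {n D : ℕ} (hn : 2 ≤ n) (hnp : ¬ n.Prime) (hD : n < 10 ^ D) : a n < 10 ^ (D + 1) := by
  have hq : 0 < n / lpf n := Nat.div_pos (lpf_le hn) (lpf_prime hn).pos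
  have h1 : n / lpf n < 10 ^ (Nat.log 10 (n / lpf n) + 1) := Nat.lt_pow_succ_log_self (by norm_num) _
  have h2 : 10 ^ Nat.log 10 (n / lpf n) ≤ n / lpf n := Nat.pow_log_le_self 10 hq.ne'
  have h3 : 10 ^ (Nat.log 10 (n / lpf n) + len n) ≤ n := by
    rw [pow_add]
    calc 10 ^ Nat.log 10 (n / lpf n) * 10 ^ len n ≤ n / lpf n * lpf n := Nat.mul_le_mul h2 (le_lpf hn)
      _ = n := Nat.div_mul_cancel (lpf_dvd hn)
  have h4 : Nat.log 10 (n / lpf n) + len n < D :=
    (Nat.pow_lt_pow_iff_right (by norm_num : 1 < 10)).1 (lt_of_le_of_lt h3 hD)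
  have h5 : a n < 10 ^ ((Nat.log 10 (n / lpf n) + 1) + (len n + 1)) := by
    rw [a_eq hn hnp, pow_add 10 (Nat.log 10 (n / lpf n) + 1)]
    have h6 := Nat.mul_le_mul_right (10 ^ (len n + 1)) (h1 : n / lpf n + 1 ≤ _)
    rw [Nat.succ_mul] at h6
    have h7 := @lpf_lt n
    omega
  exact lt_of_lt_of_le h5 (Nat.pow_le_pow_right (by norm_num) (by omega))

theorem a_inj {n m : ℕ} (hn : 2 ≤ n) (hnp : ¬ n.Prime) (hm : 2 ≤ m) (hmp : ¬ m.Prime)
    (h1 : a n = a m) (h2 : len n = len m) : n = m := by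
  have e1 := a_mod hn hnp
  have e2 := a_mod hm hmp
  have e3 := a_div hn hnp
  have e4 := a_div hm hmp
  rw [h1, h2] at e1 e3
  have e5 : lpf n = lpf m := e1.symm.trans e2
  have e6 : n / lpf n = m / lpf m := e3.symm.trans e4
  calc n = n / lpf n * lpf n := (Nat.div_mul_cancel (lpf_dvd hn)).symm
    _ = m / lpf m * lpf m := by rw [e6, e5]
    _ = m := Nat.div_mul_cancel (lpf_dvd hm)

/-- the number of composite `n < 10^D` with `a n` in a given set -/
theorem card_preimage_le (Q : ℕ → Prop) [DecidablePred Q] (D : ℕ) :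
    ((range (10 ^ D)).filter (fun n => 2 ≤ n ∧ ¬ n.Prime ∧ Q (a n))).card ≤
      ∑ x ∈ (range (10 ^ (D + 1))).filter Q, cnt (D + 1) x := by
  have h1 : ∑ x ∈ (range (10 ^ (D + 1))).filter Q, cnt (D + 1) x =
      ((((range (10 ^ (D + 1))).filter Q) ×ˢ (range (D + 1))).filter (fun p => isP p.2 p.1)).card := by
    rw [Finset.card_filter, Finset.sum_product]
    refine Finset.sum_congr rfl fun x _ => ?_
    unfold cnt
    rw [Finset.card_filter]
  rw [h1]
  refine Finset.card_le_card_of_injOn (fun n => (a n, len n)) ?_ ?_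
  · intro n hn
    rw [Finset.mem_coe, Finset.mem_filter, Finset.mem_range] at hn
    obtain ⟨h2, h3, h4, h5⟩ := hn
    rw [Finset.mem_coe, Finset.mem_filter, Finset.mem_product, Finset.mem_filter, Finset.mem_range,
      Finset.mem_range]
    have := len_lt h3 h2
    exact ⟨⟨⟨a_lt h3 h4 h2, h5⟩, by show len n < D + 1; omega⟩, a_isP h3 h4⟩
  · intro n hn m hm h
    rw [Finset.mem_coe, Finset.mem_filter, Finset.mem_range] at hn hm
    rw [Prod.mk.injEq] at h
    exact a_inj hn.2.1 hn.2.2.1 hm.2.1 hm.2.2.1 h.1 h.2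

/-- truncation -/
theorem sum_cnt_le (Q : ℕ → Prop) [DecidablePred Q] (D T : ℕ) :
    ∑ x ∈ (range (10 ^ D)).filter Q, cnt D x ≤
      T * ((range (10 ^ D)).filter Q).card + D * ((range (10 ^ D)).filter (fun x => T ≤ cnt D x)).card := by
  have h1 : ∀ x ∈ (range (10 ^ D)).filter Q, cnt D x ≤ T + (if T ≤ cnt D x then D else 0) := by
    intro x _
    have h2 : cnt D x ≤ D := by
      unfold cnt
      exact (Finset.card_filter_le _ _).trans (by simp)
    split_ifs with h
    · omega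
    · omega
  refine (Finset.sum_le_sum h1).trans ?_
  rw [Finset.sum_add_distrib, Finset.sum_const, smul_eq_mul, mul_comm]
  apply Nat.add_le_add_left
  calc ∑ x ∈ (range (10 ^ D)).filter Q, (if T ≤ cnt D x then D else 0)
      ≤ ∑ x ∈ range (10 ^ D), (if T ≤ cnt D x then D else 0) :=
        Finset.sum_le_sum_of_subset (Finset.filter_subset _ _)
    _ = D * ((range (10 ^ D)).filter (fun x => T ≤ cnt D x)).card := by
        rw [← Finset.sum_filter, Finset.sum_const, smul_eq_mul, mul_comm]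

/-- `1 + log` of a natural number -/
noncomputable def lg (m : ℕ) : ℝ := 1 + Real.log m

theorem one_le_lg {m : ℕ} (hm : 1 ≤ m) : 1 ≤ lg m := by
  unfold lg
  have := Real.log_nonneg (by exact_mod_cast hm : (1 : ℝ) ≤ m)
  linarith

theorem lg_mono {m n : ℕ} (hm : 1 ≤ m) (h : m ≤ n) : lg m ≤ lg n := by
  unfold lg
  have h1 : (0 : ℝ) < m := by exact_mod_cast hm
  have := Real.log_le_log h1 (by exact_mod_cast h : (m : ℝ) ≤ n)
  linarith

theorem hs_le (D : ℕ) : hs D ≤ lg D := by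
  have h1 := harmonic_le_one_add_log D
  unfold hs lg
  refine le_trans (le_of_eq ?_) h1
  unfold harmonic
  push_cast
  exact Finset.sum_congr rfl fun i _ => by rw [one_div]

theorem one_le_hs {D : ℕ} (hD : 1 ≤ D) : 1 ≤ hs D := by
  have h1 : hs 1 = 1 := by simp [hs]
  rw [← h1]
  exact hs_mono hD

/-- few numbers have more than `801 (1 + log D)^2` prime suffixes -/
theorem exists_T {D : ℕ} (hD : 1 ≤ D) : ∃ T : ℕ, (T : ℝ) ≤ 801 * lg D ^ 2 ∧
    (D : ℝ) * ((range (10 ^ D)).filter (fun x => T ≤ cnt D x)).card ≤ 2 * 10 ^ D / D := by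
  have hD0 : (0 : ℝ) < D := by exact_mod_cast hD
  have hh := one_le_hs hD
  have hh2 := hs_le D
  have hlg := one_le_lg hD
  have hlog : 0 ≤ Real.log D := Real.log_nonneg (by exact_mod_cast hD)
  obtain ⟨u, hu⟩ : ∃ u : ℝ, u = 1 / (200 * hs D) := ⟨_, rfl⟩
  have hu0 : 0 < u := by rw [hu]; positivity
  have hu1 : u ≤ 1 := by
    rw [hu, div_le_one (by positivity)]
    linarith
  obtain ⟨T, hT⟩ : ∃ T : ℕ, T = ⌈800 * hs D * Real.log D⌉₊ := ⟨_, rfl⟩
  have hT1 : 800 * hs D * Real.log D ≤ T := by rw [hT]; exact Nat.le_ceil _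
  have hT2 : (T : ℝ) < 800 * hs D * Real.log D + 1 := by
    rw [hT]
    exact Nat.ceil_lt_add_one (by positivity)
  refine ⟨T, ?_, ?_⟩
  · have h1 : hs D * Real.log D ≤ lg D * lg D := by
      apply mul_le_mul hh2 _ hlog (by linarith)
      unfold lg
      linarith
    nlinarith
  · have h1 := card_many_le (L := 1 + u) (by linarith) D T (by
      rw [hu]
      field_simp
      linarith)
    have h2 : (D : ℝ) ^ 2 ≤ (1 + u) ^ T := by
      have h3 : u / 2 ≤ Real.log (1 + u) := by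
        have h4 := Real.one_sub_inv_le_log_of_pos (by linarith : (0 : ℝ) < 1 + u)
        refine le_trans ?_ h4
        rw [show 1 - (1 + u)⁻¹ = u / (1 + u) by field_simp; ring]
        exact div_le_div_of_nonneg_left hu0.le (by linarith) (by linarith)
      have h5 : 2 * Real.log D ≤ T * Real.log (1 + u) := by
        calc 2 * Real.log D = (800 * hs D * Real.log D) * (u / 2) := by
              rw [hu]
              field_simp
              ring
          _ ≤ T * (u / 2) := mul_le_mul_of_nonneg_right hT1 (by positivity)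
          _ ≤ T * Real.log (1 + u) := mul_le_mul_of_nonneg_left h3 (Nat.cast_nonneg _)
      have h6 := Real.exp_le_exp.2 h5
      have e1 : Real.exp (2 * Real.log D) = (D : ℝ) ^ 2 := by
        rw [two_mul, Real.exp_add, Real.exp_log hD0, sq]
      have e2 : Real.exp (T * Real.log (1 + u)) = (1 + u) ^ T := by
        rw [Real.exp_nat_mul, Real.exp_log (by linarith)]
      rwa [e1, e2] at h6
    rw [le_div_iff₀ hD0]
    calc (D : ℝ) * ((range (10 ^ D)).filter (fun x => T ≤ cnt D x)).card * D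
        = ((range (10 ^ D)).filter (fun x => T ≤ cnt D x)).card * (D : ℝ) ^ 2 := by ring
      _ ≤ ((range (10 ^ D)).filter (fun x => T ≤ cnt D x)).card * (1 + u) ^ T :=
          mul_le_mul_of_nonneg_left h2 (Nat.cast_nonneg _)
      _ ≤ 2 * 10 ^ D := h1

/-- number of `n < 10^D` with `a^[K] n` prime -/
def F (K D : ℕ) : ℕ := ((range (10 ^ D)).filter (fun n => (a^[K] n).Prime)).card

theorem F_zero {D : ℕ} (hD : 1 ≤ D) : (F 0 D : ℝ) ≤ 100 * 10 ^ D / D := by
  have h1 := primesAP_ten_le 0 0 D hD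
  refine le_trans (le_of_eq ?_) h1
  unfold F primesAP
  simp

theorem F_succ {K D : ℕ} (hD : 1 ≤ D) :
    (F (K + 1) D : ℝ) ≤ 120 * 10 ^ D / D + 801 * lg (D + 1) ^ 2 * F K (D + 1) := by
  have hD0 : (0 : ℝ) < D := by exact_mod_cast hD
  obtain ⟨T, hT1, hT2⟩ := exists_T (by omega : 1 ≤ D + 1)
  have h1 : F (K + 1) D ≤ F 0 D +
      ((range (10 ^ D)).filter (fun n => 2 ≤ n ∧ ¬ n.Prime ∧ (fun m => (a^[K] m).Prime) (a n))).card := by
    unfold F
    rw [← Finset.card_union_add_card_inter]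
    refine le_trans (Finset.card_le_card ?_) (Nat.le_add_right _ _)
    intro n hn
    rw [Finset.mem_filter] at hn
    obtain ⟨hn1, hn2⟩ := hn
    rw [Function.iterate_succ_apply] at hn2
    rw [Finset.mem_union, Finset.mem_filter, Finset.mem_filter]
    by_cases hp : n.Prime
    · left
      exact ⟨hn1, by simpa using hp⟩
    · right
      refine ⟨hn1, ?_, hp, hn2⟩
      by_contra h2
      have h3 : a n = n := by
        unfold a
        rw [if_pos (Or.inl (by omega))]
      rw [h3, Function.iterate_fixed h3] at hn2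
      exact hp hn2
  have h2 := card_preimage_le (fun m => (a^[K] m).Prime) D
  have h3 := sum_cnt_le (fun m => (a^[K] m).Prime) (D + 1) T
  have h4 : F (K + 1) D ≤ F 0 D + (T * F K (D + 1) +
      (D + 1) * ((range (10 ^ (D + 1))).filter (fun x => T ≤ cnt (D + 1) x)).card) := by
    refine h1.trans (Nat.add_le_add_left (h2.trans h3) _)
  have h5 : (F (K + 1) D : ℝ) ≤ F 0 D + (T * F K (D + 1) +
      ((D + 1 : ℕ) : ℝ) * ((range (10 ^ (D + 1))).filter (fun x => T ≤ cnt (D + 1) x)).card) := by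
    exact_mod_cast h4
  have h6 := F_zero hD
  have h7 : (T : ℝ) * F K (D + 1) ≤ 801 * lg (D + 1) ^ 2 * F K (D + 1) :=
    mul_le_mul_of_nonneg_right hT1 (Nat.cast_nonneg _)
  have h8 : 2 * (10 : ℝ) ^ (D + 1) / ((D + 1 : ℕ) : ℝ) ≤ 20 * 10 ^ D / D := by
    rw [pow_succ]
    rw [div_le_div_iff₀ (by positivity) hD0]
    push_cast
    have : (0 : ℝ) < 10 ^ D := by positivity
    nlinarith
  have e : 120 * (10 : ℝ) ^ D / D = 100 * 10 ^ D / D + 20 * 10 ^ D / D := by ring
  rw [e]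
  linarith

theorem F_le (K : ℕ) : ∀ D : ℕ, 1 ≤ D →
    (F K D : ℝ) ≤ 10000 * (10000 * lg (D + K) ^ 2) ^ K * (10 ^ D / D) := by
  induction K with
  | zero =>
    intro D hD
    have h1 := F_zero hD
    have hD0 : (0 : ℝ) < D := by exact_mod_cast hD
    refine h1.trans ?_
    rw [pow_zero, mul_one, ← mul_div_assoc]
    apply div_le_div_of_nonneg_right _ hD0.le
    have : (0 : ℝ) < 10 ^ D := by positivity
    linarith
  | succ K ih =>
    intro D hD
    have hD0 : (0 : ℝ) < D := by exact_mod_cast hD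
    have h1 := F_succ (K := K) hD
    have h2 := ih (D + 1) (by omega)
    obtain ⟨l, hl⟩ : ∃ l : ℝ, l = lg (D + (K + 1)) := ⟨_, rfl⟩
    have hl1 : 1 ≤ l := by rw [hl]; exact one_le_lg (by omega)
    have e1 : D + 1 + K = D + (K + 1) := by ring
    rw [e1, ← hl] at h2
    rw [← hl]
    have h3 : lg (D + 1) ≤ l := by rw [hl]; exact lg_mono (by omega) (by omega)
    have h3' : 1 ≤ lg (D + 1) := one_le_lg (by omega)
    obtain ⟨X, hX⟩ : ∃ X : ℝ, X = 10 ^ D / D := ⟨_, rfl⟩
    have hX0 : 0 < X := by rw [hX]; positivity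
    have h4 : (10 : ℝ) ^ (D + 1) / ((D + 1 : ℕ) : ℝ) ≤ 10 * X := by
      rw [hX, pow_succ, ← mul_div_assoc, div_le_div_iff₀ (by positivity) hD0]
      push_cast
      have : (0 : ℝ) < 10 ^ D := by positivity
      nlinarith
    obtain ⟨Y, hY⟩ : ∃ Y : ℝ, Y = (10000 * l ^ 2) ^ K := ⟨_, rfl⟩
    have hY1 : 1 ≤ Y := by
      rw [hY]
      apply one_le_pow₀
      nlinarith
    rw [← hY] at h2
    have h5 : (F K (D + 1) : ℝ) ≤ 100000 * Y * X := by
      calc (F K (D + 1) : ℝ) ≤ 10000 * Y * (10 ^ (D + 1) / ((D + 1 : ℕ) : ℝ)) := h2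
        _ ≤ 10000 * Y * (10 * X) := mul_le_mul_of_nonneg_left h4 (by positivity)
        _ = 100000 * Y * X := by ring
    have h6 : 801 * lg (D + 1) ^ 2 * F K (D + 1) ≤ 801 * l ^ 2 * (100000 * Y * X) := by
      apply mul_le_mul _ h5 (Nat.cast_nonneg _) (by positivity)
      apply mul_le_mul_of_nonneg_left _ (by norm_num)
      exact pow_le_pow_left₀ (by linarith) h3 2
    have e2 : 120 * (10 : ℝ) ^ D / D = 120 * X := by rw [hX]; ring
    rw [e2] at h1
    have e3 : (10000 * l ^ 2) ^ (K + 1) = Y * (10000 * l ^ 2) := by rw [hY, pow_succ]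
    rw [e3, ← hX]
    have h7 : 120 * X ≤ 120 * (l ^ 2 * Y * X) := by
      have : 1 ≤ l ^ 2 * Y := by nlinarith [one_le_pow₀ hl1 (n := 2)]
      nlinarith
    have h8 : 0 < l ^ 2 * Y * X := by positivity
    calc (F (K + 1) D : ℝ) ≤ 120 * X + 801 * lg (D + 1) ^ 2 * F K (D + 1) := h1
      _ ≤ 120 * (l ^ 2 * Y * X) + 801 * l ^ 2 * (100000 * Y * X) := add_le_add h7 h6
      _ = (120 + 80100000) * (l ^ 2 * Y * X) := by ring
      _ ≤ 100000000 * (l ^ 2 * Y * X) := mul_le_mul_of_nonneg_right (by norm_num) h8.le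
      _ = 10000 * (Y * (10000 * l ^ 2)) * X := by ring

end Pool.Agent.helper2.CP
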