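import Pool.Agent.helper31.BVM.X06
import Pool.Agent.helper2.CP.Map

set_option autoImplicit false

/-!
# The tuple: shifts `10^E * P * (1 + β + ... + β^i)`, `β = 10^g`, `10^(g-1) ≤ P < 10^g`
-/

namespace Pool.Agent.helper2.CP

open Finset BVM

/-- repunit with `j` digits in base `β` -/
def rep (β j : ℕ) : ℕ := ∑ t ∈ range j, β ^ t

theorem rep_succ (β j : ℕ) : rep β (j + 1) = rep β j + β ^ j := by
  unfold rep
  rw [sum_range_succ]

theorem rep_add (β i j : ℕ) : rep β (i + j) = rep β i + β ^ i * rep β j := by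
  unfold rep
  rw [sum_range_add, mul_sum]
  simp only [pow_add]

theorem rep_mul (β j : ℕ) (hβ : 1 ≤ β) : (β - 1) * rep β j + 1 = β ^ j := by
  induction j with
  | zero => simp [rep]
  | succ j ih =>
    rw [rep_succ, mul_add, add_right_comm, ih, pow_succ]
    obtain ⟨c, rfl⟩ : ∃ c, β = c + 1 := ⟨β - 1, by omega⟩
    simp
    ring

theorem rep_pos {β j : ℕ} (hj : 0 < j) : 0 < rep β j := by
  obtain ⟨i, rfl⟩ : ∃ i, j = i + 1 := ⟨j - 1, by omega⟩
  unfold rep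
  rw [sum_range_succ']
  simp

theorem le_rep (β j : ℕ) : β ^ j ≤ rep β (j + 1) := by
  rw [rep_succ]
  exact Nat.le_add_left _ _

theorem mul_rep_lt {β P j : ℕ} (hP : P < β) : P * rep β j < β ^ j := by
  have h1 := rep_mul β j (by omega)
  have h2 : P * rep β j ≤ (β - 1) * rep β j := Nat.mul_le_mul_right _ (by omega)
  omega

/-- the shifts -/
def sh (E P β i : ℕ) : ℕ := 10 ^ E * (P * rep β (i + 1))

theorem sh_sub {E P g i j : ℕ} (hij : i < j) :
    sh E P (10 ^ g) j = sh E P (10 ^ g) i + 10 ^ (E + g * (i + 1)) * (P * rep (10 ^ g) (j - i)) := by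
  unfold sh
  have e : j + 1 = (i + 1) + (j - i) := by omega
  have e2 : (10 ^ g) ^ (i + 1) = 10 ^ (g * (i + 1)) := (pow_mul 10 g (i + 1)).symm
  rw [e, rep_add, e2, pow_add 10 E]
  ring

theorem sh_lt {E P g i n : ℕ} (hP : P < 10 ^ g) (hn : n < 10 ^ E) :
    n + sh E P (10 ^ g) i < 10 ^ (E + g * (i + 1)) := by
  have h1 : P * rep (10 ^ g) (i + 1) + 1 ≤ (10 ^ g) ^ (i + 1) := mul_rep_lt hP
  have h2 := Nat.mul_le_mul_left (10 ^ E) h1
  rw [mul_add, mul_one, ← pow_mul, ← pow_add] at h2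
  unfold sh
  omega

theorem sh_ge {E P g i : ℕ} (hP : 10 ^ g ≤ P) :
    10 ^ (E + (g + 1) * (i + 1) - 1) ≤ sh E P (10 ^ (g + 1)) i := by
  have h1 := le_rep (10 ^ (g + 1)) i
  have h2 := Nat.mul_le_mul hP h1
  have h3 := Nat.mul_le_mul_left (10 ^ E) h2
  unfold sh
  refine le_trans (le_of_eq ?_) h3
  rw [← pow_mul, ← pow_add, ← pow_add]
  congr 1
  have : (g + 1) * (i + 1) = (g + 1) * i + g + 1 := by ring
  omega

theorem digits_form {E P g i n : ℕ} (hP1 : 10 ^ g ≤ P) (hP2 : P < 10 ^ (g + 1)) (hn : n < 10 ^ E) :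
    (Nat.digits 10 (n + sh E P (10 ^ (g + 1)) i)).length = E + (g + 1) * (i + 1) := by
  have h1 := sh_ge (E := E) (i := i) hP1
  have h2 := sh_lt (E := E) (i := i) hP2 hn
  have h3 : (g + 1) * (i + 1) = (g + 1) * i + g + 1 := by ring
  have e : E + (g + 1) * (i + 1) = (E + (g + 1) * (i + 1) - 1) + 1 := by omega
  rw [e]
  apply digits_length
  · omega
  · rw [← e]
    exact h2

/-- two primes of the tuple: the larger one is the image of a composite number -/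
theorem a_form {E P g i j n : ℕ} (hP0 : 2 ≤ P) (hP1 : 10 ^ g ≤ P) (hP2 : P < 10 ^ (g + 1)) (hn : n < 10 ^ E)
    (hij : i < j) (hp : (n + sh E P (10 ^ (g + 1)) i).Prime)
    (hbig : (10 ^ (g + 1)) ^ j ≤ n) :
    a (P * rep (10 ^ (g + 1)) (j - i) * (n + sh E P (10 ^ (g + 1)) i)) = n + sh E P (10 ^ (g + 1)) j ∧
      P * rep (10 ^ (g + 1)) (j - i) < n + sh E P (10 ^ (g + 1)) i ∧
      2 ≤ P * rep (10 ^ (g + 1)) (j - i) := by
  have h1 : 0 < rep (10 ^ (g + 1)) (j - i) := rep_pos (by omega)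
  have h2 : P * rep (10 ^ (g + 1)) (j - i) < (10 ^ (g + 1)) ^ (j - i) := mul_rep_lt hP2
  have h3 : (10 ^ (g + 1)) ^ (j - i) ≤ (10 ^ (g + 1)) ^ j :=
    Nat.pow_le_pow_right (by positivity) (Nat.sub_le _ _)
  have h4 : P * rep (10 ^ (g + 1)) (j - i) < n + sh E P (10 ^ (g + 1)) i := by omega
  have h5 : 2 ≤ P * rep (10 ^ (g + 1)) (j - i) := le_trans hP0 (Nat.le_mul_of_pos_right _ h1)
  refine ⟨?_, h4, h5⟩
  rw [a_mul hp h5 h4, digits_form hP1 hP2 hn, sh_sub hij]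
  ring

theorem prime_dvd_sub {E P g i j p D : ℕ} (hp : p.Prime) (hP2 : P < 10 ^ (g + 1)) (hP0 : 0 < P)
    (hij : i < j) (hD : (10 ^ (g + 1)) ^ (j + 1) ≤ D) (hpD : D < p) :
    ¬ p ∣ 10 ^ (E + (g + 1) * (i + 1)) * (P * rep (10 ^ (g + 1)) (j - i)) := by
  intro h
  have hb : 10 ≤ (10 ^ (g + 1)) ^ (j + 1) := by
    rw [← pow_mul]
    calc 10 = 10 ^ 1 := by norm_num
      _ ≤ _ := Nat.pow_le_pow_right (by norm_num) (by nlinarith)
  rcases (Nat.Prime.dvd_mul hp).1 h with h1 | h1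
  · have h2 := hp.dvd_of_dvd_pow h1
    have := Nat.le_of_dvd (by norm_num) h2
    omega
  · have h1' : 0 < rep (10 ^ (g + 1)) (j - i) := rep_pos (by omega)
    have h2 := Nat.le_of_dvd (by positivity) h1
    have h3 : P * rep (10 ^ (g + 1)) (j - i) < (10 ^ (g + 1)) ^ (j - i) := mul_rep_lt hP2
    have h4 : (10 ^ (g + 1)) ^ (j - i) ≤ (10 ^ (g + 1)) ^ (j + 1) :=
      Nat.pow_le_pow_right (by positivity) (by omega)
    omega

/-- a residue class avoiding few given classes -/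
theorem exists_avoid {I : Type*} [Fintype I] (b : I → ℤ) {p : ℕ} (hp : p.Prime) (hcard : Fintype.card I < p) :
    ∃ n : ℕ, ∀ i, ¬ (p : ℤ) ∣ (n : ℤ) + b i := by
  have : NeZero p := ⟨hp.ne_zero⟩
  classical
  have h1 : ¬ Function.Surjective (fun i : I => (-(b i : ZMod p))) := by
    intro h
    have := Fintype.card_le_of_surjective _ h
    rw [ZMod.card] at this
    omega
  unfold Function.Surjective at h1
  push Not at h1
  obtain ⟨z, hz⟩ := h1
  refine ⟨z.val, fun i hi => hz i ?_⟩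
  have h2 : (((z.val : ℤ) + b i : ℤ) : ZMod p) = 0 := (ZMod.intCast_zmod_eq_zero_iff_dvd _ _).2 hi
  push_cast at h2
  rw [ZMod.natCast_zmod_val] at h2
  exact (eq_neg_of_add_eq_zero_left h2).symm

theorem exists_v0 {I : Type*} [Fintype I] (b : I → ℤ) (D : ℕ)
    (h : ∀ p : ℕ, p.Prime → ∃ n : ℕ, ∀ i, ¬ (p : ℤ) ∣ (n : ℤ) + b i) :
    ∃ v0 : ℕ, ∀ i, Int.gcd ((v0 : ℤ) + b i) (Wd D) = 1 := by
  choose! np hnp using h
  have hco : Set.Pairwise (((Finset.range (D + 1)).filter Nat.Prime : Finset ℕ) : Set ℕ)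
      (Function.onFun Nat.Coprime (fun p : ℕ => p)) := by
    intro p hp q hq hpq
    rw [Finset.mem_coe, Finset.mem_filter] at hp hq
    exact (Nat.coprime_primes hp.2 hq.2).mpr hpq
  obtain ⟨v0, hv0⟩ := Nat.chineseRemainderOfFinset np (fun p : ℕ => p)
    ((Finset.range (D + 1)).filter Nat.Prime)
    (fun p hp => (Finset.mem_filter.mp hp).2.ne_zero) hco
  refine ⟨v0, fun i => ?_⟩
  by_contra hne
  obtain ⟨p, hp, hpd⟩ := Nat.exists_prime_and_dvd hne
  have h1 : (p : ℤ) ∣ (v0 : ℤ) + b i := by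
    have : ((Int.gcd ((v0 : ℤ) + b i) (Wd D) : ℕ) : ℤ) ∣ (v0 : ℤ) + b i := Int.gcd_dvd_left ..
    exact (Int.natCast_dvd_natCast.mpr hpd).trans this
  have h2 : p ∣ Wd D := by
    have : ((Int.gcd ((v0 : ℤ) + b i) (Wd D) : ℕ) : ℤ) ∣ (Wd D : ℤ) := Int.gcd_dvd_right ..
    exact Int.natCast_dvd_natCast.mp ((Int.natCast_dvd_natCast.mpr hpd).trans this)
  have h3 : p ≤ D := by
    unfold Wd at h2
    rw [Prime.dvd_finsetProd_iff hp.prime] at h2
    obtain ⟨q, hq, hpq⟩ := h2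
    rw [Finset.mem_filter, Finset.mem_range] at hq
    have := (Nat.prime_dvd_prime_iff_eq hp hq.2).mp hpq
    omega
  have h4 : v0 ≡ np p [MOD p] := hv0 p (Finset.mem_filter.mpr
    ⟨Finset.mem_range.mpr (by omega), hp⟩)
  have h5 : (p : ℤ) ∣ (np p : ℤ) - v0 := (Nat.modEq_iff_dvd).mp h4
  apply hnp p hp i
  have h6 : (np p : ℤ) + b i = (v0 + b i) + ((np p : ℤ) - v0) := by ring
  rw [h6]
  exact dvd_add h1 h5

end Pool.Agent.helper2.CP
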