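import Pool.Agent.helper2.CP.U2
import Pool.Agent.helper2.CP.Tuple

set_option autoImplicit false

/-!
# Infinitely many composite numbers are mapped to primes by `a`
-/

namespace Pool.Agent.helper2.CP

open Finset BVM

theorem many_preimages (hBV : BVInput) (M : ℕ) :
    {q : ℕ | q.Prime ∧ ∃ S : Finset ℕ, S.card = M ∧
      ∀ n ∈ S, 2 ≤ n ∧ ¬ n.Prime ∧ a n = q}.Infinite := by
  classical
  obtain ⟨K, hK⟩ := many_primes hBV M
  obtain ⟨k, hk⟩ : ∃ k, k = max K 2 := ⟨_, rfl⟩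
  have hKk : K ≤ k := by rw [hk]; exact le_max_left _ _
  have hk2 : 2 ≤ k := by rw [hk]; exact le_max_right _ _
  obtain ⟨P, hP⟩ : ∃ P, P = k.factorial := ⟨_, rfl⟩
  have hPpos : 0 < P := by rw [hP]; exact Nat.factorial_pos k
  have hP0 : 2 ≤ P := by
    rw [hP]
    exact hk2.trans (Nat.self_le_factorial k)
  obtain ⟨g, hg⟩ : ∃ g, g = Nat.log 10 P := ⟨_, rfl⟩
  have hP1 : 10 ^ g ≤ P := by rw [hg]; exact Nat.pow_log_le_self 10 hPpos.ne'
  have hP2 : P < 10 ^ (g + 1) := by rw [hg]; exact Nat.lt_pow_succ_log_self (by norm_num) P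
  obtain ⟨β, hβ⟩ : ∃ β, β = 10 ^ (g + 1) := ⟨_, rfl⟩
  have hβ1 : 1 ≤ β := by rw [hβ]; exact Nat.one_le_pow _ _ (by norm_num)
  obtain ⟨D, hD1, hD⟩ := hK (Fin k) (by simpa using hKk) (β ^ (k + 1)) (2 + 20 * β ^ k) (by positivity)
  refine Set.infinite_of_forall_exists_gt fun N₀ => ?_
  obtain ⟨N, hN0, hN⟩ := hD (N₀ + 1 + β ^ k)
  obtain ⟨E, hE⟩ : ∃ E, E = Nat.clog 10 (2 * N) := ⟨_, rfl⟩
  have hE1 : 2 * N ≤ 10 ^ E := by rw [hE]; exact Nat.le_pow_clog (by norm_num) _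
  have hE2 : 10 ^ E ≤ 20 * N := by
    have h1 : 10 ^ (Nat.clog 10 (2 * N)).pred < 2 * N :=
      Nat.pow_pred_clog_lt_self (by norm_num) (by omega)
    have h2 : 0 < Nat.clog 10 (2 * N) := Nat.clog_pos (by norm_num) (by omega)
    rw [hE]
    obtain ⟨e, he⟩ : ∃ e, Nat.clog 10 (2 * N) = e + 1 := ⟨Nat.clog 10 (2 * N) - 1, by omega⟩
    rw [he] at h1 ⊢
    simp only [Nat.pred_succ] at h1
    rw [pow_succ]
    omega
  obtain ⟨b, hb⟩ : ∃ b : Fin k → ℤ, b = fun i : Fin k => ((sh E P β (i : ℕ) : ℕ) : ℤ) := ⟨_, rfl⟩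
  have hbi : ∀ i, b i = ((sh E P β (i : ℕ) : ℕ) : ℤ) := fun i => by rw [hb]
  -- separation
  have hsub : ∀ i j : Fin k, i < j → ∀ p : ℕ, p.Prime → D < p → ¬ (p : ℤ) ∣ b j - b i := by
    intro i j hij p hp hDp hdvd
    have h1 : (i : ℕ) < j := hij
    have h2 := sh_sub (E := E) (P := P) (g := g + 1) h1
    have h3 : b j - b i = ((10 ^ (E + (g + 1) * ((i : ℕ) + 1)) * (P * rep (10 ^ (g + 1)) ((j : ℕ) - i)) : ℕ) : ℤ) := by
      rw [hbi, hbi, hβ, h2]
      push_cast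
      ring
    rw [h3, Int.natCast_dvd_natCast] at hdvd
    refine prime_dvd_sub hp hP2 hPpos h1 (D := D) ?_ hDp hdvd
    refine le_trans ?_ hD1
    rw [← hβ]
    exact Nat.pow_le_pow_right hβ1 (by have := j.2; omega)
  have hsep : Sep D (fun _ : Fin k => 1) b := by
    refine ⟨fun p hp _ _ h => ?_, fun p hp hDp i j hij h => ?_⟩
    · exact hp.one_lt.ne' (Nat.dvd_one.1 h)
    · simp only [Nat.cast_one, one_mul] at h
      rcases lt_or_gt_of_ne hij with h1 | h1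
      · exact hsub i j h1 p hp hDp h
      · exact hsub j i h1 p hp hDp (by rwa [← dvd_neg, neg_sub])
  -- admissibility
  have hadm : ∀ p : ℕ, p.Prime → ∃ n : ℕ, ∀ i, ¬ (p : ℤ) ∣ (n : ℤ) + b i := by
    intro p hp
    by_cases hpk : p ≤ k
    · refine ⟨1, fun i hi => ?_⟩
      have h1 : (p : ℤ) ∣ b i := by
        rw [hbi, Int.natCast_dvd_natCast]
        unfold sh
        refine Dvd.dvd.mul_left (Dvd.dvd.mul_right ?_ _) _
        rw [hP]
        exact (Nat.Prime.dvd_factorial hp).2 hpk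
      have h2 : (p : ℤ) ∣ ((1 : ℕ) : ℤ) := (dvd_add_left h1).1 hi
      rw [Int.natCast_dvd_natCast] at h2
      exact hp.one_lt.ne' (Nat.dvd_one.1 h2)
    · exact exists_avoid b hp (by simpa using not_le.1 hpk)
  obtain ⟨v0, hv0⟩ := exists_v0 b D hadm
  have hshle : ∀ i : Fin k, 2 * N + sh E P β i ≤ (2 + 20 * β ^ k) * N := by
    intro i
    have h1 : P * rep β ((i : ℕ) + 1) < β ^ ((i : ℕ) + 1) := mul_rep_lt (by rw [hβ]; exact hP2)
    have h2 : β ^ ((i : ℕ) + 1) ≤ β ^ k := Nat.pow_le_pow_right hβ1 (by have := i.2; omega)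
    have h3 : sh E P β i ≤ (20 * N) * β ^ k := by
      unfold sh
      exact Nat.mul_le_mul hE2 (by omega)
    calc 2 * N + sh E P β i ≤ 2 * N + (20 * N) * β ^ k := by omega
      _ = (2 + 20 * β ^ k) * N := by ring
  obtain ⟨n, hn, hcard⟩ := hN b hsep v0 hv0 (fun i => by rw [hbi]; positivity) (fun i => by
    rw [hbi]
    exact_mod_cast hshle i)
  rw [Finset.mem_Ico] at hn
  have hnE : n < 10 ^ E := by omega
  obtain ⟨T, hT⟩ : ∃ T, T = univ.filter (fun i : Fin k => ((n : ℤ) + b i).toNat.Prime) := ⟨_, rfl⟩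
  rw [← hT] at hcard
  have hTp : ∀ i ∈ T, (n + sh E P β i).Prime := by
    intro i hi
    rw [hT, Finset.mem_filter] at hi
    have h1 := hi.2
    rw [hbi] at h1
    have e : ((n : ℤ) + ((sh E P β (i : ℕ) : ℕ) : ℤ)).toNat = n + sh E P β i := by
      rw [← Nat.cast_add, Int.toNat_natCast]
    rwa [e] at h1
  have hne : T.Nonempty := Finset.card_pos.1 (by omega)
  obtain ⟨j, hj⟩ : ∃ j, j = T.max' hne := ⟨_, rfl⟩
  have hjT : j ∈ T := by rw [hj]; exact Finset.max'_mem _ _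
  have hlt : ∀ i ∈ T.erase j, i < j := by
    intro i hi
    rw [Finset.mem_erase] at hi
    exact lt_of_le_of_ne (by rw [hj]; exact Finset.le_max' _ _ hi.2) hi.1
  obtain ⟨f, hf⟩ : ∃ f : Fin k → ℕ, f = fun i : Fin k => P * rep β ((j : ℕ) - (i : ℕ)) * (n + sh E P β (i : ℕ)) := ⟨_, rfl⟩
  have hform : ∀ i ∈ T.erase j, a (f i) = n + sh E P β j ∧
      P * rep β ((j : ℕ) - i) < n + sh E P β i ∧ 2 ≤ P * rep β ((j : ℕ) - i) := by
    intro i hi
    have h1 : (i : ℕ) < j := hlt i hi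
    have h2 := hTp i (Finset.mem_of_mem_erase hi)
    have h3 : β ^ (j : ℕ) ≤ n := by
      have h4 : β ^ (j : ℕ) ≤ β ^ k := Nat.pow_le_pow_right hβ1 (by have := j.2; omega)
      omega
    rw [hf]
    simp only
    rw [hβ] at h2 h3 ⊢
    exact a_form hP0 hP1 hP2 hnE h1 h2 h3
  have hinj : Set.InjOn f (T.erase j : Finset (Fin k)) := by
    intro i hi i' hi' hff
    rw [Finset.mem_coe] at hi hi'
    have h1 : ∀ u ∈ T.erase j, lpf (f u) = n + sh E P β u := by
      intro u hu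
      obtain ⟨_, h2, h3⟩ := hform u hu
      rw [hf]
      exact lpf_mul (hTp u (Finset.mem_of_mem_erase hu)) (by omega) h2
    have h2 : n + sh E P β i = n + sh E P β i' := by
      rw [← h1 i hi, ← h1 i' hi', hff]
    have hmono : ∀ u v : Fin k, u < v → sh E P β u < sh E P β v := by
      intro u v huv
      have h3 : (u : ℕ) < v := huv
      have h4 := sh_sub (E := E) (P := P) (g := g + 1) h3
      rw [← hβ] at h4
      have h5 : 0 < rep β ((v : ℕ) - u) := rep_pos (by omega)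
      have h6 : 0 < 10 ^ (E + (g + 1) * ((u : ℕ) + 1)) * (P * rep β ((v : ℕ) - u)) := by positivity
      omega
    rcases lt_trichotomy i i' with h | h | h
    · have := hmono i i' h
      omega
    · exact h
    · have := hmono i' i h
      omega
  have hcard2 : M ≤ ((T.erase j).image f).card := by
    rw [Finset.card_image_of_injOn hinj, Finset.card_erase_of_mem hjT]
    omega
  obtain ⟨S, hS1, hS2⟩ := Finset.exists_subset_card_eq hcard2
  refine ⟨n + sh E P β j, ⟨hTp j hjT, S, hS2, fun n' hn' => ?_⟩, by omega⟩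
  obtain ⟨i, hi, rfl⟩ := Finset.mem_image.1 (hS1 hn')
  obtain ⟨h1, h2, h3⟩ := hform i hi
  have h4 := (hTp i (Finset.mem_of_mem_erase hi)).one_lt
  refine ⟨?_, ?_, h1⟩
  · rw [hf]
    simp only
    nlinarith
  · rw [hf]
    exact Nat.not_prime_mul (by omega) (by omega)

theorem composite_to_prime (hBV : BVInput) :
    {n : ℕ | 2 ≤ n ∧ ¬ n.Prime ∧ (a n).Prime}.Infinite := by
  refine Set.Infinite.of_image a ((many_preimages hBV 1).mono ?_)
  rintro q ⟨hq, S, hS, h⟩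
  obtain ⟨n, hn⟩ := Finset.card_pos.1 (by omega : 0 < S.card)
  obtain ⟨h1, h2, h3⟩ := h n hn
  exact ⟨n, ⟨h1, h2, by rw [h3]; exact hq⟩, h3⟩

end Pool.Agent.helper2.CP
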