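import Pool.Agent.helper31.BVM.PDef
import Pool.Agent.helper31.BVM.V04
import Pool.Agent.helper31.BVM.V08

/-!
# Maynard weights with forms depending on the scale: total mass

Adapted from `Pool.Agent.helper31.BVM.P01` (`S0_upper`): the same proof, the shifts `b` and the class `v0` are
chosen after the scale `N`.
-/

noncomputable section

namespace Pool.Agent.helper2.CP

open Finset Filter BVM

variable {I : Type*} [Fintype I] [DecidableEq I]

private lemma P01_asym (η : ℝ) (hη2 : η < 1 / 4) (m : ℕ) (e : ℝ) (he : 0 < e) :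
    ∀ᶠ N : ℕ in atTop, (N : ℝ) ^ (2 * η) * (3 * (1 + Real.log N)) ^ m ≤ e * N := by
  have h1 : (fun x : ℝ => Real.log x ^ (m : ℝ)) =o[atTop] fun x : ℝ => x ^ (1 - 2 * η) :=
    isLittleO_log_rpow_rpow_atTop _ (by linarith)
  have h2 := h1.comp_tendsto tendsto_natCast_atTop_atTop
  have hc : 0 < e / 6 ^ m := by positivity
  have h3 := h2.bound hc
  filter_upwards [h3, eventually_ge_atTop 3] with N hN hN3
  have hN0 : (0 : ℝ) < N := by
    have : 0 < N := by omega
    exact_mod_cast this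
  have hlog : 1 ≤ Real.log N := by
    rw [Real.le_log_iff_exp_le hN0]
    have h4 : (3 : ℝ) ≤ N := by exact_mod_cast hN3
    exact (Real.exp_one_lt_d9.le.trans (by norm_num)).trans h4
  simp only [Function.comp] at hN
  rw [Real.rpow_natCast, Real.norm_of_nonneg (by positivity),
    Real.norm_of_nonneg (by positivity)] at hN
  have h5 : (3 * (1 + Real.log N)) ^ m ≤ 6 ^ m * Real.log N ^ m := by
    rw [← mul_pow]
    apply pow_le_pow_left₀ (by positivity)
    linarith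
  calc (N : ℝ) ^ (2 * η) * (3 * (1 + Real.log N)) ^ m
      ≤ (N : ℝ) ^ (2 * η) * (6 ^ m * Real.log N ^ m) :=
        mul_le_mul_of_nonneg_left h5 (by positivity)
    _ ≤ (N : ℝ) ^ (2 * η) * (6 ^ m * (e / 6 ^ m * (N : ℝ) ^ (1 - 2 * η))) := by
        apply mul_le_mul_of_nonneg_left _ (by positivity)
        exact mul_le_mul_of_nonneg_left hN (by positivity)
    _ = e * ((N : ℝ) ^ (2 * η) * (N : ℝ) ^ (1 - 2 * η)) := by
        field_simp
    _ = e * N := by
        rw [← Real.rpow_add hN0]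
        rw [show 2 * η + (1 - 2 * η) = 1 by ring, Real.rpow_one]

/-- the quadratic form is at most the power of the one-dimensional sum -/
private lemma P01_main (I : Type*) [Fintype I] [DecidableEq I] (D : ℕ) (hD : 1 ≤ D)
    (hDk : Fintype.card I ≤ D) (J : ℕ) (ζ η : ℝ) (N : ℕ) :
    QF (fun p : ↥(Ps D (Nat.sqrt N)) => Bk (tauP p / (1 + tauP p))) (lmN I D J ζ η N) ≤
      Real.exp (2 * Fintype.card I / D) * I2f D J ζ N ^ Fintype.card I := by
  have hD0 : (0 : ℝ) < D := by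
    have : 0 < D := hD
    exact_mod_cast this
  have hk : ∀ p : ↥(Ps D (Nat.sqrt N)), (Fintype.card I : ℝ) * tauP p ≤ 1 := by
    intro p
    have h1 := tauP_le hD p
    have h2 : (Fintype.card I : ℝ) ≤ D := by exact_mod_cast hDk
    calc (Fintype.card I : ℝ) * tauP p ≤ D * (1 / D) :=
          mul_le_mul h2 h1 (tauP_nonneg p) hD0.le
      _ = 1 := by field_simp
  have h1 := QF_upper (I := I) (tauP (D := D) (Y := Nat.sqrt N)) nuP tauP_nonneg hk
    (hst J ((N : ℝ) ^ ζ)) (hst_nonneg J _) ((N : ℝ) ^ η)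
  refine (show QF (fun p : ↥(Ps D (Nat.sqrt N)) => Bk (tauP p / (1 + tauP p)))
    (lmN I D J ζ η N) ≤ _ from h1).trans ?_
  have h2 := S1_compare (tauP (D := D) (Y := Nat.sqrt N)) (fun p => tauP p * (1 + tauP p)) 1
    zero_le_one tauP_nonneg
    (fun p => by
      have := tauP_nonneg p
      positivity)
    (fun p => by
      rw [one_mul])
    (fun A => hst J ((N : ℝ) ^ ζ) (sz nuP A) ^ 2) (fun A => sq_nonneg _)
    (fun A B hAB => pow_le_pow_left₀ (hst_nonneg J _ _)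
      (hst_antitone J _ (sz_mono nuP one_le_nuP A B hAB)) 2)
  have h3 := prod_tauP_le_exp D (Nat.sqrt N) hD 1 zero_le_one
  have h4 : 0 ≤ I2f D J ζ N := by
    unfold I2f S1
    exact Finset.sum_nonneg fun A _ =>
      mul_nonneg (Finset.prod_nonneg fun p _ => tauP_nonneg p) (sq_nonneg _)
  have h5 : S1 (fun p : ↥(Ps D (Nat.sqrt N)) => tauP p * (1 + tauP p))
      (fun A => hst J ((N : ℝ) ^ ζ) (sz nuP A) ^ 2) ≤ Real.exp (2 * 1 / D) * I2f D J ζ N :=
    h2.trans (mul_le_mul_of_nonneg_right h3 h4)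
  have h6 : 0 ≤ S1 (fun p : ↥(Ps D (Nat.sqrt N)) => tauP p * (1 + tauP p))
      (fun A => hst J ((N : ℝ) ^ ζ) (sz nuP A) ^ 2) := by
    unfold S1
    refine Finset.sum_nonneg fun A _ => mul_nonneg (Finset.prod_nonneg fun p _ => ?_) (sq_nonneg _)
    have := tauP_nonneg p
    positivity
  refine (pow_le_pow_left₀ h6 h5 _).trans (le_of_eq ?_)
  rw [mul_pow, ← Real.exp_nat_mul]
  congr 2
  ring

/-- the sum of the absolute values of the coefficients -/
private lemma P01_err (I : Type*) [Fintype I] [DecidableEq I] (D : ℕ) (hD : 1 ≤ D)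
    (J : ℕ) (ζ η : ℝ) (hη : 0 < η) (hη2 : η < 1 / 4) (N : ℕ) (hN : 1 ≤ N) :
    (∑ c, |lmN I D J ζ η N c|) ^ 2 ≤
      (N : ℝ) ^ (2 * η) * (3 * (1 + Real.log N)) ^ (4 * Fintype.card I + 2) := by
  have hN1 : (1 : ℝ) ≤ N := by exact_mod_cast hN
  have hN0 : (0 : ℝ) < N := by linarith
  have hR1 : (1 : ℝ) ≤ (N : ℝ) ^ η := Real.one_le_rpow hN1 hη.le
  have hlog0 : 0 ≤ Real.log N := Real.log_nonneg hN1
  set k := Fintype.card I with hk
  set G := GS (tauP (D := D) (Y := Nat.sqrt N)) nuP ((N : ℝ) ^ η) ∅ with hG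
  have hG0 : 0 ≤ G := by
    rw [hG]
    unfold GS
    exact Finset.sum_nonneg fun A _ => Finset.prod_nonneg fun p _ => tauP_nonneg p
  have hGle : G ≤ 3 * (1 + Real.log N) := by
    have h1 := GS_le_GW D (Nat.sqrt N) ((N : ℝ) ^ η) (by positivity)
    have h2 := GW_log_le D hD ((N : ℝ) ^ η) hR1
    rw [Real.log_rpow hN0] at h2
    have h3 : η * Real.log N ≤ Real.log N := by nlinarith
    linarith
  have h1 : ∑ c, |lmN I D J ζ η N c| ≤ (N : ℝ) ^ η * G ^ k * G ^ (k + 1) := by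
    have h2 : ∀ c : ↥(Ps D (Nat.sqrt N)) → Option I, |lmN I D J ζ η N c| ≤
        (if sz nuP (supp c) ≤ (N : ℝ) ^ η then (1 : ℝ) else 0) * G ^ (k + 1) := by
      intro c
      split_ifs with h
      · rw [one_mul]
        exact lam_bound tauP nuP tauP_nonneg one_le_nuP (hst J ((N : ℝ) ^ ζ)) (hst_nonneg J _)
          (hst_le_one J _) ((N : ℝ) ^ η) c
      · have h3 : lmN I D J ζ η N c = 0 :=
          lam_supp tauP nuP one_le_nuP (hst J ((N : ℝ) ^ ζ)) ((N : ℝ) ^ η) c (not_le.1 h)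
        rw [h3, abs_zero, zero_mul]
    calc ∑ c, |lmN I D J ζ η N c|
        ≤ ∑ c : ↥(Ps D (Nat.sqrt N)) → Option I,
          (if sz nuP (supp c) ≤ (N : ℝ) ^ η then (1 : ℝ) else 0) * G ^ (k + 1) :=
          Finset.sum_le_sum fun c _ => h2 c
      _ = (∑ c : ↥(Ps D (Nat.sqrt N)) → Option I,
          (if sz nuP (supp c) ≤ (N : ℝ) ^ η then (1 : ℝ) else 0)) * G ^ (k + 1) := by
          rw [Finset.sum_mul]
      _ ≤ ((N : ℝ) ^ η * G ^ k) * G ^ (k + 1) := by
          apply mul_le_mul_of_nonneg_right _ (pow_nonneg hG0 _)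
          exact card_cfg_le tauP nuP one_le_nuP one_le_nuP_mul_tauP ((N : ℝ) ^ η) (by positivity)
  have h0 : 0 ≤ ∑ c, |lmN I D J ζ η N c| := Finset.sum_nonneg fun c _ => abs_nonneg _
  calc (∑ c, |lmN I D J ζ η N c|) ^ 2 ≤ ((N : ℝ) ^ η * G ^ k * G ^ (k + 1)) ^ 2 :=
        pow_le_pow_left₀ h0 h1 2
    _ = (N : ℝ) ^ (2 * η) * G ^ (4 * k + 2) := by
        have h4 : ((N : ℝ) ^ η) ^ 2 = (N : ℝ) ^ (2 * η) := by
          rw [← Real.rpow_natCast, ← Real.rpow_mul hN0.le]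
          congr 1
          push_cast
          ring
        rw [← h4]
        ring
    _ ≤ (N : ℝ) ^ (2 * η) * (3 * (1 + Real.log N)) ^ (4 * k + 2) := by
        apply mul_le_mul_of_nonneg_left _ (by positivity)
        exact pow_le_pow_left₀ hG0 hGle _

theorem S0_upper_unif (a : I → ℕ) (D : ℕ) (hD : 1 ≤ D)
    (hDk : Fintype.card I ≤ D) (J : ℕ) (ζ η : ℝ) (hζ : 0 < ζ) (hη : 0 < η)
    (hη2 : η < 1 / 4) (s : ℝ) (hs : 0 < s) :
    ∀ᶠ N : ℕ in atTop, ∀ b : I → ℤ, Sep D a b → ∀ v0 : ℕ,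
      (∀ i, Int.gcd (a i * v0 + b i) (Wd D) = 1) →
      ∑ n ∈ Finset.Ico N (2 * N), wN a b D v0 J ζ η N n ≤
      (Real.exp (2 * Fintype.card I / D) + s) * (N / Wd D) *
        I2f D J ζ N ^ Fintype.card I := by
  have hW : (0 : ℝ) < Wd D := by
    have : 0 < Wd D := by
      unfold Wd
      exact Finset.prod_pos fun p hp => (Finset.mem_filter.1 hp).2.pos
    exact_mod_cast this
  have hasym := P01_asym η hη2 (4 * Fintype.card I + 2) (s / Wd D) (by positivity)
  filter_upwards [hasym, eventually_ge_atTop 1] with N hN hN1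
  intro b hsep v0 hv0
  have h1 := S0_expansion (Y := Nat.sqrt N) a b hsep v0 hv0 N (lmN I D J ζ η N)
  have h2 := P01_main I D hD hDk J ζ η N
  have h3 := P01_err I D hD J ζ η hη hη2 N hN1
  have h4 := one_le_I2f D J ζ hζ N hN1
  have h5 : 1 ≤ I2f D J ζ N ^ Fintype.card I := one_le_pow₀ h4
  have h6 := (abs_le.1 h1).2
  have h7 : (N : ℝ) / Wd D * QF (fun p : ↥(Ps D (Nat.sqrt N)) => Bk (tauP p / (1 + tauP p)))
      (lmN I D J ζ η N) ≤ (N : ℝ) / Wd D *
      (Real.exp (2 * Fintype.card I / D) * I2f D J ζ N ^ Fintype.card I) :=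
    mul_le_mul_of_nonneg_left h2 (by positivity)
  have h8 : s / Wd D * (N : ℝ) * 1 ≤ s / Wd D * (N : ℝ) * I2f D J ζ N ^ Fintype.card I :=
    mul_le_mul_of_nonneg_left h5 (by positivity)
  have h9 : ∑ n ∈ Finset.Ico N (2 * N), wN a b D v0 J ζ η N n =
      ∑ n ∈ Finset.Ico N (2 * N),
        (if n ≡ v0 [MOD Wd D] then dsum a b (lmN I D J ζ η N) n ^ 2 else 0) := rfl
  rw [h9]
  have h10 : (Real.exp (2 * Fintype.card I / D) + s) * (N / Wd D) *
      I2f D J ζ N ^ Fintype.card I = (N : ℝ) / Wd D *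
      (Real.exp (2 * Fintype.card I / D) * I2f D J ζ N ^ Fintype.card I) +
      s / Wd D * (N : ℝ) * I2f D J ζ N ^ Fintype.card I := by ring
  rw [h10]
  linarith

end Pool.Agent.helper2.CP

end
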