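import Pool.Agent.helper2.CP.U0
import Pool.Agent.helper2.CP.U1
import Pool.Agent.helper31.BVM.P09

set_option autoImplicit false

/-!
# Many primes among forms `n + b i` whose shifts depend on the scale

From `S0_upper_unif`, `Sm_lower_unif` and Bombieri-Vinogradov at arbitrarily large scales: for every `M`, if the
number of forms is large, there is `n ∈ [N, 2N)` for which more than `M` of the numbers `n + b i` are prime; the
shifts `0 ≤ b i`, `2 N + b i ≤ c N`, are chosen after `N`.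
-/

noncomputable section

namespace Pool.Agent.helper2.CP

open Finset Filter BVM

theorem wN_nonneg {I : Type*} [Fintype I] [DecidableEq I] (a : I → ℕ) (b : I → ℤ) (D v0 J : ℕ) (ζ η : ℝ)
    (N n : ℕ) : 0 ≤ wN a b D v0 J ζ η N n := by
  unfold wN
  split_ifs
  · positivity
  · exact le_rfl

theorem many_primes (hBV : BVInput) (M : ℕ) : ∃ K : ℕ, ∀ (I : Type) [Fintype I] [DecidableEq I],
    K ≤ Fintype.card I → ∀ D₁ c : ℕ, 0 < c → ∃ D : ℕ, D₁ ≤ D ∧ ∀ N₀ : ℕ, ∃ N : ℕ, N₀ ≤ N ∧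
      ∀ b : I → ℤ, Sep D (fun _ => 1) b → ∀ v0 : ℕ,
      (∀ i, Int.gcd ((v0 : ℤ) + b i) (Wd D) = 1) →
      (∀ i, 0 ≤ b i) → (∀ i, 2 * (N : ℤ) + b i ≤ c * N) →
      ∃ n ∈ Finset.Ico N (2 * N),
        M < (univ.filter (fun i : I => ((n : ℤ) + b i).toNat.Prime)).card := by
  classical
  obtain ⟨η, J, K, hη0, hη1, -, hK⟩ := params 1 (M + 1) one_pos
  refine ⟨K, fun I _ _ hcard D₁ c hc => ?_⟩
  obtain ⟨hk1, hJζ, hH⟩ := hK (Fintype.card I) hcard
  set k : ℕ := Fintype.card I with hk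
  set ζ : ℝ := η ^ 2 / (k * (4 + 3 * (J : ℝ))) with hζ
  have hkpos : (0 : ℝ) < k := by exact_mod_cast hk1
  have hζ0 : 0 < ζ := by
    rw [hζ]; positivity
  have hcJ := cJ_pos J
  obtain ⟨D, s, hDD, hkD, hs, hexp, hbr, hl, hu⟩ :=
    params2 k J hk1 η ζ hη0 hη1 rfl hJζ D₁
  refine ⟨D, hDD, fun N₀ => ?_⟩
  obtain ⟨B, C, hdata⟩ := hBV.data (Ak k)
  have hD1 : 1 ≤ D := by omega
  have e1 := S0_upper_unif (I := I) (fun _ => 1) D hD1 (by omega) J ζ η hζ0 hη0 (by linarith) s hs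
  have hJlt : 2 ^ J * ζ < η := by linarith
  have e2 := Sm_lower_unif (I := I) (fun _ => 1) (fun _ => one_pos) D hD1 hkD hexp J ζ η hζ0 hJlt
    (by linarith) hbr B C s hs c hc
  have tN : Tendsto (fun x : ℕ => x / c) atTop atTop := Nat.tendsto_div_const_atTop hc.ne'
  have e1' := tN.eventually e1
  have e4 := tN.eventually_ge_atTop (max N₀ 1)
  obtain ⟨x0, hx0⟩ := (e1'.and (e2.and e4)).exists_forall_of_atTop
  obtain ⟨x, hx, hDat⟩ := hdata x0
  obtain ⟨h1, h2, h4⟩ := hx0 x hx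
  set N : ℕ := x / c with hN
  refine ⟨N, le_trans (le_max_left _ _) h4, fun b hsep v0 hv0 hb0 hbc => ?_⟩
  have hNpos : 1 ≤ N := le_trans (le_max_right _ _) h4
  have hNR : (0 : ℝ) < N := by exact_mod_cast hNpos
  have hI2 := one_le_I2f D J ζ hζ0 N hNpos
  have hI2pos : 0 < I2f D J ζ N ^ k := by positivity
  have hW : (0 : ℝ) < Wd D := by
    have := kap_pos D
    unfold kap at this
    by_contra hcon
    have h0 : (Wd D : ℝ) = 0 := le_antisymm (not_lt.1 hcon) (Nat.cast_nonneg _)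
    rw [h0, div_zero] at this
    exact lt_irrefl _ this
  have he1 : 1 ≤ Real.exp (2 * k / D) := by
    apply Real.one_le_exp
    positivity
  set e : ℝ := Real.exp (2 * k / D) + s with he
  have hepos : 0 < e := by linarith
  obtain ⟨X, hX⟩ : ∃ X, X = (N : ℝ) / Wd D * I2f D J ζ N ^ k := ⟨_, rfl⟩
  have hX0 : 0 < X := by rw [hX]; positivity
  have hv0' : ∀ i : I, Int.gcd (((1 : ℕ) : ℤ) * v0 + b i) (Wd D) = 1 := by
    intro i
    have := hv0 i
    simpa using this
  have hbc' : ∀ i : I, 2 * (((1 : ℕ) : ℤ)) * N + b i ≤ c * N := by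
    intro i
    have := hbc i
    simpa using this
  have h1' := h1 b hsep v0 hv0'
  have h2' := h2 hDat N rfl b hsep v0 hv0' hb0 hbc'
  obtain ⟨S, hS⟩ : ∃ S, S = ∑ n ∈ Finset.Ico N (2 * N), wN (fun _ : I => 1) b D v0 J ζ η N n := ⟨_, rfl⟩
  have hSle : S ≤ e * X := by
    rw [hS, hX]
    refine h1'.trans (le_of_eq ?_)
    ring
  by_contra hcon
  push Not at hcon
  have hub : ∑ i : I, ∑ n ∈ Finset.Ico N (2 * N),
      wN (fun _ : I => 1) b D v0 J ζ η N n * ip 1 (b i) n ≤ M * S := by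
    rw [Finset.sum_comm, hS, Finset.mul_sum]
    refine Finset.sum_le_sum fun n hn => ?_
    rw [← Finset.mul_sum, mul_comm]
    apply mul_le_mul_of_nonneg_right _ (wN_nonneg _ _ _ _ _ _ _ _ _)
    have h5 : ∑ i : I, ip 1 (b i) n =
        ((univ.filter (fun i : I => ((n : ℤ) + b i).toNat.Prime)).card : ℝ) := by
      rw [Finset.card_filter]
      push_cast
      refine Finset.sum_congr rfl fun i _ => ?_
      unfold ip PrimeAt
      simp
    rw [h5]
    exact_mod_cast hcon n hn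
  have hlb : (k : ℝ) * ((lbc k D J ζ η - s) * X) ≤ ∑ i : I, ∑ n ∈ Finset.Ico N (2 * N),
      wN (fun _ : I => 1) b D v0 J ζ η N n * ip 1 (b i) n := by
    have h5 : (k : ℝ) * ((lbc k D J ζ η - s) * X) = ∑ _i : I, (lbc k D J ζ η - s) * X := by
      rw [Finset.sum_const, Finset.card_univ, nsmul_eq_mul]
    rw [h5]
    refine Finset.sum_le_sum fun i _ => ?_
    have h6 := h2' i
    rw [hX]
    refine le_trans (le_of_eq ?_) h6
    ring
  have h7 : ((M : ℝ) + 1) * (e * X) ≤ M * (e * X) := by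
    calc ((M : ℝ) + 1) * (e * X) ≤ (k * ((1 - 2 * η) * (ζ * cJ J))) * (e * X) :=
          mul_le_mul_of_nonneg_right hH (by positivity)
      _ = k * (((1 - 2 * η) * (ζ * cJ J) * e) * X) := by ring
      _ ≤ k * ((lbc k D J ζ η - s) * X) :=
          mul_le_mul_of_nonneg_left (mul_le_mul_of_nonneg_right hl hX0.le) hkpos.le
      _ ≤ M * S := hlb.trans hub
      _ ≤ M * (e * X) := mul_le_mul_of_nonneg_left hSle (Nat.cast_nonneg M)
  have h8 : 0 < e * X := by positivity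
  linarith

end Pool.Agent.helper2.CP

end
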